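import Pool.Agent.R105.HM.Grid

/-!
# Counting matchings and cliques
-/

set_option autoImplicit false

open Finset

namespace Pool.Agent.R105.HM

/-- `M` is an ordered `r`-matching with vertex set `W`: a partition of `W` into sets of size `r` -/
def IsMatching (r : ℕ) (W : Finset ℕ) (M : Finset (Finset ℕ)) : Prop :=
  (∀ e ∈ M, e.card = r) ∧ (∀ e ∈ M, ∀ f ∈ M, e ≠ f → Disjoint e f) ∧ M.biUnion id = W

open Classical in
/-- the ordered `r`-matchings with vertex set `W` -/
noncomputable def matchings (r : ℕ) (W : Finset ℕ) : Finset (Finset (Finset ℕ)) :=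
  W.powerset.powerset.filter (IsMatching r W)

theorem mem_matchings {r : ℕ} {W : Finset ℕ} {M : Finset (Finset ℕ)} :
    M ∈ matchings r W ↔ IsMatching r W M := by
  classical
  unfold matchings
  rw [mem_filter, mem_powerset]
  refine ⟨fun h => h.2, fun h => ⟨?_, h⟩⟩
  intro e he
  rw [mem_powerset, ← h.2.2]
  intro x hx
  exact mem_biUnion.mpr ⟨e, he, hx⟩

open Classical in
/-- the matchings with vertex set `W` which are cliques -/
noncomputable def cm (PP : Finset (List Bool)) (r : ℕ) (W : Finset ℕ) :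
    Finset (Finset (Finset ℕ)) := (matchings r W).filter (IsClique PP)

theorem mem_cm {PP : Finset (List Bool)} {r : ℕ} {W : Finset ℕ} {M : Finset (Finset ℕ)} :
    M ∈ cm PP r W ↔ IsMatching r W M ∧ IsClique PP M := by
  classical
  unfold cm
  rw [mem_filter, mem_matchings]

theorem eq_of_nth {r : ℕ} {e f : Finset ℕ} (he : e.card = r) (hf : f.card = r)
    (h : ∀ i, i < r → nth e i = nth f i) : e = f := by
  have key : ∀ {e f : Finset ℕ}, e.card = r → f.card = r → (∀ i, i < r → nth e i = nth f i) →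
      e ⊆ f := by
    intro e f he hf h x hx
    obtain ⟨i, hi, rfl⟩ := exists_nth hx
    rw [he] at hi
    rw [h i hi]
    exact nth_mem (by rw [hf]; exact hi)
  exact Subset.antisymm (key he hf h) (key hf he fun i hi => (h i hi).symm)

/-- exponentially many cliques on `n` vertices -/
theorem cm_card_le {PP : Finset (List Bool)} {N : ℕ} (hN : ∀ (r : ℕ) (K : Finset (Finset ℕ)),
    (∀ e ∈ K, e.card = r) → (∀ e ∈ K, ∀ f ∈ K, e ≠ f → Disjoint e f) → IsClique PP K →
      ∀ j, j < r → ¬ Contains (gridPerm N) (K.image (fun e => (nth e 0, nth e j))))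
    {r : ℕ} (hr : 2 ≤ r) (n : ℕ) :
    (cm PP r (range n)).card ≤ ((avo (gridPerm N) n).card) ^ (r - 1) := by
  classical
  have h1 : (Fintype.piFinset (fun _ : Fin (r - 1) => avo (gridPerm N) n)).card =
      ((avo (gridPerm N) n).card) ^ (r - 1) := by
    rw [Fintype.card_piFinset_const]
  rw [← h1]
  refine card_le_card_of_injOn
    (fun K => fun j : Fin (r - 1) => K.image (fun e => (nth e 0, nth e (j.val + 1)))) ?_ ?_
  · intro K hK
    obtain ⟨⟨hK1, hK2, hK3⟩, hK4⟩ := mem_cm.mp hK
    rw [mem_coe, Fintype.mem_piFinset]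
    intro j
    rw [mem_avo]
    refine ⟨?_, hN r K hK1 hK2 hK4 _ (by omega)⟩
    intro p hp
    obtain ⟨e, he, rfl⟩ := mem_image.mp hp
    have h2 : ∀ i, i < r → nth e i ∈ range n := by
      intro i hi
      rw [← hK3]
      exact mem_biUnion.mpr ⟨e, he, nth_mem (e := e) (by rw [hK1 e he]; exact hi)⟩
    exact mem_product.mpr ⟨h2 0 (by omega), h2 _ (by omega)⟩
  · have key : ∀ K ∈ cm PP r (range n), ∀ K' ∈ cm PP r (range n),
        (fun j : Fin (r - 1) => K.image (fun e => (nth e 0, nth e (j.val + 1)))) =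
        (fun j : Fin (r - 1) => K'.image (fun e => (nth e 0, nth e (j.val + 1)))) → K ⊆ K' := by
      intro K hK K' hK' h e he
      obtain ⟨⟨hK1, hK2, hK3⟩, hK4⟩ := mem_cm.mp hK
      obtain ⟨⟨hK1', hK2', hK3'⟩, hK4'⟩ := mem_cm.mp hK'
      have h2 : ∀ j : Fin (r - 1), ∃ e' ∈ K', nth e' 0 = nth e 0 ∧
          nth e' (j.val + 1) = nth e (j.val + 1) := by
        intro j
        have h3 := congrFun h j
        have h4 : (nth e 0, nth e (j.val + 1)) ∈
            K'.image (fun e => (nth e 0, nth e (j.val + 1))) := by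
          rw [← h3]
          exact mem_image.mpr ⟨e, he, rfl⟩
        obtain ⟨e', he', h5⟩ := mem_image.mp h4
        exact ⟨e', he', congrArg Prod.fst h5, congrArg Prod.snd h5⟩
      obtain ⟨e', he', h5, -⟩ := h2 ⟨0, by omega⟩
      have h6 : e = e' := by
        refine eq_of_nth (hK1 e he) (hK1' e' he') fun i hi => ?_
        rcases Nat.eq_zero_or_pos i with rfl | hi0
        · exact h5.symm
        · obtain ⟨j, rfl⟩ : ∃ j, i = j + 1 := ⟨i - 1, by omega⟩
          obtain ⟨f, hf, h7, h8⟩ := h2 ⟨j, by omega⟩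
          have h9 : f = e' := by
            by_contra hne
            have := Finset.disjoint_left.mp (hK2' f hf e' he' hne)
              (nth_mem (i := 0) (by rw [hK1' f hf]; omega))
            apply this
            rw [h7, ← h5]
            exact nth_mem (by rw [hK1' e' he']; omega)
          rw [← h9]
          exact h8.symm
      rw [h6]; exact he'
    intro K hK K' hK' h
    exact Subset.antisymm (key K hK K' hK' h) (key K' hK' K hK h.symm)

/-! ### Order isomorphic vertex sets -/

theorem word_map (φ : ℕ ↪o ℕ) (e f : Finset ℕ) :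
    word (e.map φ.toEmbedding) (f.map φ.toEmbedding) = word e f := by
  unfold word
  rw [← map_union, ← StrictMonoOn.map_finsetSort (f := φ.toEmbedding) (e ∪ f)
    (fun a _ b _ h => φ.strictMono h), List.map_map]
  refine List.map_congr_left fun x _ => ?_
  simp only [Function.comp]
  congr 1
  rw [mem_map']

theorem form_map (φ : ℕ ↪o ℕ) (e f : Finset ℕ) (P : List Bool) :
    Form (e.map φ.toEmbedding) (f.map φ.toEmbedding) P ↔ Form e f P := by
  unfold Form
  rw [word_map, word_map]

/-- the image of a set system -/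
def img (φ : ℕ ↪o ℕ) (K : Finset (Finset ℕ)) : Finset (Finset ℕ) :=
  K.map (Finset.mapEmbedding φ.toEmbedding).toEmbedding

theorem mem_img {φ : ℕ ↪o ℕ} {K : Finset (Finset ℕ)} {e : Finset ℕ} :
    e ∈ img φ K ↔ ∃ f ∈ K, f.map φ.toEmbedding = e := by
  unfold img
  rw [mem_map]
  rfl

theorem img_injective (φ : ℕ ↪o ℕ) : Function.Injective (img φ) :=
  Finset.map_injective _

theorem isClique_img {φ : ℕ ↪o ℕ} {PP : Finset (List Bool)} {K : Finset (Finset ℕ)} :
    IsClique PP (img φ K) ↔ IsClique PP K := by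
  constructor
  · intro h e he f hf hef
    obtain ⟨P, hP, hP2⟩ := h _ (mem_img.mpr ⟨e, he, rfl⟩) _ (mem_img.mpr ⟨f, hf, rfl⟩)
      (fun h => hef (Finset.map_injective _ h))
    exact ⟨P, hP, (form_map φ e f P).mp hP2⟩
  · intro h e he f hf hef
    obtain ⟨e', he', rfl⟩ := mem_img.mp he
    obtain ⟨f', hf', rfl⟩ := mem_img.mp hf
    obtain ⟨P, hP, hP2⟩ := h e' he' f' hf' (fun h => hef (by rw [h]))
    exact ⟨P, hP, (form_map φ e' f' P).mpr hP2⟩

theorem isMatching_img {φ : ℕ ↪o ℕ} {r : ℕ} {W : Finset ℕ} {K : Finset (Finset ℕ)} :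
    IsMatching r (W.map φ.toEmbedding) (img φ K) ↔ IsMatching r W K := by
  have h3 : (img φ K).biUnion id = (K.biUnion id).map φ.toEmbedding := by
    ext x
    simp only [mem_biUnion, mem_map, id]
    constructor
    · rintro ⟨e, he, hx⟩
      obtain ⟨f, hf, rfl⟩ := mem_img.mp he
      obtain ⟨y, hy, rfl⟩ := mem_map.mp hx
      exact ⟨y, ⟨f, hf, hy⟩, rfl⟩
    · rintro ⟨y, ⟨f, hf, hy⟩, rfl⟩
      exact ⟨f.map φ.toEmbedding, mem_img.mpr ⟨f, hf, rfl⟩, mem_map_of_mem _ hy⟩
  unfold IsMatching
  rw [h3, Finset.map_inj]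
  refine and_congr ?_ (and_congr ?_ Iff.rfl)
  · constructor
    · intro h e he
      rw [← h _ (mem_img.mpr ⟨e, he, rfl⟩), card_map]
    · intro h e he
      obtain ⟨f, hf, rfl⟩ := mem_img.mp he
      rw [card_map]; exact h f hf
  · constructor
    · intro h e he f hf hef
      have := h _ (mem_img.mpr ⟨e, he, rfl⟩) _ (mem_img.mpr ⟨f, hf, rfl⟩)
        (fun h => hef (Finset.map_injective _ h))
      exact (Finset.disjoint_map _).mp this
    · intro h e he f hf hef
      obtain ⟨e', he', rfl⟩ := mem_img.mp he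
      obtain ⟨f', hf', rfl⟩ := mem_img.mp hf
      exact (Finset.disjoint_map _).mpr (h e' he' f' hf' (fun h => hef (by rw [h])))

theorem exists_img {φ : ℕ ↪o ℕ} {r : ℕ} {W : Finset ℕ} {M : Finset (Finset ℕ)}
    (h : IsMatching r (W.map φ.toEmbedding) M) : ∃ K, img φ K = M := by
  classical
  refine ⟨W.powerset.filter (fun e => e.map φ.toEmbedding ∈ M), ?_⟩
  ext e
  rw [mem_img]
  constructor
  · rintro ⟨f, hf, rfl⟩
    exact (mem_filter.mp hf).2
  · intro he
    have h1 : e ⊆ W.map φ.toEmbedding := by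
      rw [← h.2.2]
      intro x hx
      exact mem_biUnion.mpr ⟨e, he, hx⟩
    obtain ⟨f, hf, rfl⟩ := Finset.subset_map_iff.mp h1
    exact ⟨f, mem_filter.mpr ⟨mem_powerset.mpr hf, he⟩, rfl⟩

theorem matchings_map (φ : ℕ ↪o ℕ) (r : ℕ) (W : Finset ℕ) :
    (matchings r (W.map φ.toEmbedding)).card = (matchings r W).card := by
  symm
  refine card_nbij (img φ) ?_ (fun _ _ _ _ h => img_injective φ h) ?_
  · intro K hK
    rw [mem_coe, mem_matchings] at hK ⊢
    exact isMatching_img.mpr hK
  · intro M hM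
    rw [mem_coe, mem_matchings] at hM
    obtain ⟨K, rfl⟩ := exists_img hM
    exact ⟨K, mem_coe.mpr (mem_matchings.mpr (isMatching_img.mp hM)), rfl⟩

theorem cm_map (φ : ℕ ↪o ℕ) (PP : Finset (List Bool)) (r : ℕ) (W : Finset ℕ) :
    (cm PP r (W.map φ.toEmbedding)).card = (cm PP r W).card := by
  symm
  refine card_nbij (img φ) ?_ (fun _ _ _ _ h => img_injective φ h) ?_
  · intro K hK
    rw [mem_coe, mem_cm] at hK ⊢
    exact ⟨isMatching_img.mpr hK.1, isClique_img.mpr hK.2⟩
  · intro M hM
    rw [mem_coe, mem_cm] at hM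
    obtain ⟨K, rfl⟩ := exists_img hM.1
    exact ⟨K, mem_coe.mpr (mem_cm.mpr ⟨isMatching_img.mp hM.1, isClique_img.mp hM.2⟩), rfl⟩

/-- a finite set is the image of an initial segment under an order embedding -/
theorem exists_orderEmb (U : Finset ℕ) : ∃ φ : ℕ ↪o ℕ,
    (range U.card).map φ.toEmbedding = U := by
  classical
  obtain ⟨T, hT⟩ : ∃ T, ∀ x ∈ U, x < T := ⟨U.sup id + 1, fun x hx => by
    have : x ≤ U.sup id := le_sup (f := id) hx
    omega⟩
  have hinj : StrictMono (fun i => if i < U.card then nth U i else T + i) := by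
    intro i j hij
    simp only
    split_ifs with h1 h2 h2
    · exact nth_lt_nth hij h2
    · have := hT _ (nth_mem h1)
      omega
    · omega
    · omega
  refine ⟨OrderEmbedding.ofStrictMono _ hinj, ?_⟩
  ext x
  simp only [mem_map, mem_range, RelEmbedding.coe_toEmbedding, OrderEmbedding.coe_ofStrictMono]
  constructor
  · rintro ⟨i, hi, rfl⟩
    rw [if_pos hi]
    exact nth_mem hi
  · intro hx
    obtain ⟨i, hi, h⟩ := exists_nth hx
    exact ⟨i, hi, by rw [if_pos hi, h]⟩

theorem matchings_card (r : ℕ) (U : Finset ℕ) :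
    (matchings r U).card = (matchings r (range U.card)).card := by
  obtain ⟨φ, hφ⟩ := exists_orderEmb U
  conv_lhs => rw [← hφ]
  exact matchings_map φ r _

theorem cm_card (PP : Finset (List Bool)) (r : ℕ) (U : Finset ℕ) :
    (cm PP r U).card = (cm PP r (range U.card)).card := by
  obtain ⟨φ, hφ⟩ := exists_orderEmb U
  conv_lhs => rw [← hφ]
  exact cm_map φ PP r _

end Pool.Agent.R105.HM
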