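import Pool.Agent.R105.HM.Count

/-!
# Double counting and the first moment bound
-/

set_option autoImplicit false

open Finset

namespace Pool.Agent.R105.HM

theorem matching_sub {r : ℕ} {W : Finset ℕ} {M K : Finset (Finset ℕ)} (hM : IsMatching r W M)
    (hK : K ⊆ M) : IsMatching r (K.biUnion id) K :=
  ⟨fun e he => hM.1 e (hK he), fun e he f hf => hM.2.1 e (hK he) f (hK hf), rfl⟩

theorem matching_card {r : ℕ} {W : Finset ℕ} {M : Finset (Finset ℕ)} (hM : IsMatching r W M) :
    W.card = r * M.card := by
  have h1 : (M.biUnion id).card = ∑ e ∈ M, (id e).card :=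
    card_biUnion (fun e he f hf hef => hM.2.1 e he f hf hef)
  have h2 : ∑ e ∈ M, (id e).card = ∑ _e ∈ M, r := sum_congr rfl (fun e he => hM.1 e he)
  rw [← hM.2.2, h1, h2, sum_const, smul_eq_mul, mul_comm]

theorem matching_sdiff {r : ℕ} {W : Finset ℕ} {M K : Finset (Finset ℕ)} (hM : IsMatching r W M)
    (hK : K ⊆ M) : IsMatching r (W \ K.biUnion id) (M \ K) := by
  refine ⟨fun e he => hM.1 e (mem_sdiff.mp he).1,
    fun e he f hf => hM.2.1 e (mem_sdiff.mp he).1 f (mem_sdiff.mp hf).1, ?_⟩
  ext x
  simp only [mem_biUnion, mem_sdiff, id]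
  constructor
  · rintro ⟨e, ⟨he, heK⟩, hx⟩
    refine ⟨?_, ?_⟩
    · rw [← hM.2.2]; exact mem_biUnion.mpr ⟨e, he, hx⟩
    · rintro ⟨f, hf, hxf⟩
      have hef : e ≠ f := fun h => heK (h ▸ hf)
      exact Finset.disjoint_left.mp (hM.2.1 e he f (hK hf) hef) hx hxf
  · rintro ⟨hx, hx2⟩
    rw [← hM.2.2] at hx
    obtain ⟨e, he, hxe⟩ := mem_biUnion.mp hx
    exact ⟨e, ⟨he, fun h => hx2 ⟨e, h, hxe⟩⟩, hxe⟩

theorem matching_union {r : ℕ} {U V : Finset ℕ} {K M : Finset (Finset ℕ)} (hUV : Disjoint U V)
    (hK : IsMatching r U K) (hM : IsMatching r V M) : IsMatching r (U ∪ V) (K ∪ M) := by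
  have hKs : ∀ e ∈ K, e ⊆ U := fun e he => by
    rw [← hK.2.2]; exact subset_biUnion_of_mem id he
  have hMs : ∀ e ∈ M, e ⊆ V := fun e he => by
    rw [← hM.2.2]; exact subset_biUnion_of_mem id he
  refine ⟨?_, ?_, ?_⟩
  · intro e he
    rcases mem_union.mp he with he | he
    · exact hK.1 e he
    · exact hM.1 e he
  · intro e he f hf hef
    rcases mem_union.mp he with he | he <;> rcases mem_union.mp hf with hf | hf
    · exact hK.2.1 e he f hf hef
    · exact disjoint_of_subset_left (hKs e he) (disjoint_of_subset_right (hMs f hf) hUV)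
    · exact disjoint_of_subset_left (hMs e he) (disjoint_of_subset_right (hKs f hf) hUV.symm)
    · exact hM.2.1 e he f hf hef
  · rw [← hK.2.2, ← hM.2.2]
    ext x
    simp only [mem_biUnion, mem_union, id]
    constructor
    · rintro ⟨e, he | he, hx⟩
      · exact Or.inl ⟨e, he, hx⟩
      · exact Or.inr ⟨e, he, hx⟩
    · rintro (⟨e, he, hx⟩ | ⟨e, he, hx⟩)
      · exact ⟨e, Or.inl he, hx⟩
      · exact ⟨e, Or.inr he, hx⟩

/-- the second count: all pairs -/
theorem double_lower {r : ℕ} (hr : 0 < r) (W : Finset ℕ) (k : ℕ) :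
    ∑ U ∈ W.powersetCard (r * k), (matchings r U).card * (matchings r (W \ U)).card ≤
      ∑ M ∈ matchings r W, (M.powersetCard k).card := by
  classical
  have h1 : ∑ U ∈ W.powersetCard (r * k), (matchings r U).card * (matchings r (W \ U)).card =
      ((W.powersetCard (r * k)).sigma
        (fun U => matchings r U ×ˢ matchings r (W \ U))).card := by
    rw [card_sigma]; simp only [card_product]
  have h2 : ∑ M ∈ matchings r W, (M.powersetCard k).card =
      ((matchings r W).sigma (fun M => M.powersetCard k)).card := by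
    rw [card_sigma]
  rw [h1, h2]
  refine card_le_card_of_injOn (fun x => ⟨x.2.1 ∪ x.2.2, x.2.1⟩) ?_ ?_
  · rintro ⟨U, K, M⟩ hx
    rw [mem_coe, mem_sigma, mem_product] at hx
    obtain ⟨hU, hK, hM⟩ := hx
    simp only at hU hK hM
    obtain ⟨hU1, hU2⟩ := mem_powersetCard.mp hU
    rw [mem_matchings] at hK hM
    rw [mem_coe, mem_sigma]
    simp only
    refine ⟨?_, mem_powersetCard.mpr ⟨subset_union_left, ?_⟩⟩
    · rw [mem_matchings]
      have := matching_union disjoint_sdiff hK hM
      rwa [union_sdiff_of_subset hU1] at this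
    · have := matching_card hK
      rw [hU2] at this
      exact (Nat.eq_of_mul_eq_mul_left hr this).symm
  · rintro ⟨U, K, M⟩ hx ⟨U', K', M'⟩ hx' h
    rw [mem_coe, mem_sigma, mem_product] at hx hx'
    obtain ⟨hU, hK, hM⟩ := hx
    obtain ⟨hU', hK', hM'⟩ := hx'
    simp only [Sigma.mk.injEq] at h
    obtain ⟨h3, h4⟩ := h
    have h4 := eq_of_heq h4
    simp only at hU hK hM hU' hK' hM' h4
    subst h4
    rw [mem_matchings] at hK hM hK' hM'
    have hUU : U = U' := by rw [← hK.2.2, ← hK'.2.2]
    subst hUU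
    have key : ∀ {M M' : Finset (Finset ℕ)}, IsMatching r (W \ U) M → K ∪ M = K ∪ M' → M ⊆ M' := by
      intro M M' hM h e he
      have h5 : e ∈ K ∪ M' := h ▸ mem_union_right _ he
      rcases mem_union.mp h5 with h6 | h6
      · exfalso
        have h7 : e ⊆ U := by rw [← hK.2.2]; exact subset_biUnion_of_mem id h6
        have h8 : e ⊆ W \ U := by rw [← hM.2.2]; exact subset_biUnion_of_mem id he
        have h9 : 0 < e.card := by rw [hM.1 e he]; exact hr
        obtain ⟨x, hx⟩ := card_pos.mp h9
        exact (mem_sdiff.mp (h8 hx)).2 (h7 hx)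
      · exact h6
    have : M = M' := Subset.antisymm (key hM h3) (key hM' h3.symm)
    rw [this]

/-- the first count: pairs with a clique -/
theorem double_upper (PP : Finset (List Bool)) {r : ℕ} (W : Finset ℕ) (k : ℕ)
    (S : Finset (Finset (Finset ℕ))) (hS : S ⊆ matchings r W)
    (hS2 : ∀ M ∈ S, ∃ K ⊆ M, K.card = k ∧ IsClique PP K) :
    S.card ≤ ∑ U ∈ W.powersetCard (r * k), (cm PP r U).card * (matchings r (W \ U)).card := by
  classical
  have h1 : ∑ U ∈ W.powersetCard (r * k), (cm PP r U).card * (matchings r (W \ U)).card =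
      ((W.powersetCard (r * k)).sigma
        (fun U => cm PP r U ×ˢ matchings r (W \ U))).card := by
    rw [card_sigma]; simp only [card_product]
  rw [h1]
  choose! f hf1 hf2 hf3 using hS2
  refine card_le_card_of_injOn (fun M => ⟨(f M).biUnion id, f M, M \ f M⟩) ?_ ?_
  · intro M hM
    have hM' := mem_matchings.mp (hS hM)
    have hsub := matching_sub hM' (hf1 M hM)
    rw [mem_coe, mem_sigma, mem_product]
    simp only
    refine ⟨mem_powersetCard.mpr ⟨?_, ?_⟩, mem_cm.mpr ⟨hsub, hf3 M hM⟩,
      mem_matchings.mpr (matching_sdiff hM' (hf1 M hM))⟩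
    · rw [← hM'.2.2]
      exact biUnion_subset_biUnion_of_subset_left _ (hf1 M hM)
    · rw [matching_card hsub, hf2 M hM]
  · intro M hM M' hM' h
    simp only [Sigma.mk.injEq] at h
    obtain ⟨h3, h4⟩ := h
    have h5 : f M = f M' ∧ M \ f M = M' \ f M' := by
      have := h4
      rw [heq_eq_eq, Prod.mk.injEq] at this
      exact this
    rw [← union_sdiff_of_subset (hf1 M hM), ← union_sdiff_of_subset (hf1 M' hM'), h5.1, ← h5.1,
      h5.2, h5.1]

theorem pow_le_choose' (n : ℕ) : ∀ r : ℕ, n ^ r ≤ (r * n).choose r := by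
  intro r
  induction r with
  | zero => simp
  | succ r ih =>
    have h1 := Nat.add_choose_eq (r * n) n (r + 1)
    rw [show (r + 1) * n = r * n + n by ring, h1]
    have h2 : ((r, 1) : ℕ × ℕ) ∈ antidiagonal (r + 1) := by simp
    calc n ^ (r + 1) = n ^ r * n := by rw [pow_succ]
      _ ≤ (r * n).choose r * n.choose 1 := by
        rw [Nat.choose_one_right]; exact Nat.mul_le_mul ih le_rfl
      _ ≤ _ := single_le_sum (f := fun ij : ℕ × ℕ => (r * n).choose ij.1 * n.choose ij.2)
          (fun _ _ => Nat.zero_le _) h2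

/-- a lower bound for the number of matchings -/
theorem matchings_lower {r : ℕ} (hr : 0 < r) : ∀ (n : ℕ) (W : Finset ℕ), W.card = r * n →
    (n.factorial) ^ (r - 1) ≤ (matchings r W).card := by
  classical
  intro n
  induction n with
  | zero =>
    intro W hW
    rw [mul_zero, card_eq_zero] at hW
    subst hW
    rw [Nat.factorial_zero, one_pow, Nat.one_le_iff_ne_zero, Ne, card_eq_zero]
    intro h
    have : (∅ : Finset (Finset ℕ)) ∈ matchings r ∅ := by
      rw [mem_matchings]
      exact ⟨by simp, by simp, by simp⟩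
    rw [h] at this
    simp at this
  | succ n ih =>
    intro W hW
    have h1 := double_lower hr W 1
    rw [mul_one] at h1
    have h2 : ∑ M ∈ matchings r W, (M.powersetCard 1).card = (matchings r W).card * (n + 1) := by
      rw [← smul_eq_mul, ← sum_const]
      refine sum_congr rfl fun M hM => ?_
      have h3 := matching_card (mem_matchings.mp hM)
      rw [hW] at h3
      rw [card_powersetCard, Nat.choose_one_right]
      exact (Nat.eq_of_mul_eq_mul_left hr h3).symm
    have h3 : (W.powersetCard r).card * (n.factorial) ^ (r - 1) ≤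
        ∑ U ∈ W.powersetCard r, (matchings r U).card * (matchings r (W \ U)).card := by
      rw [← smul_eq_mul, ← sum_const]
      refine sum_le_sum fun U hU => ?_
      obtain ⟨hU1, hU2⟩ := mem_powersetCard.mp hU
      have h4 : 1 ≤ (matchings r U).card := by
        rw [Nat.one_le_iff_ne_zero, Ne, card_eq_zero]
        intro h
        have : ({U} : Finset (Finset ℕ)) ∈ matchings r U := by
          rw [mem_matchings]
          refine ⟨?_, ?_, by simp⟩
          · intro e he; rw [mem_singleton.mp he, hU2]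
          · intro e he f hf hef
            rw [mem_singleton.mp he, mem_singleton.mp hf] at hef
            exact absurd rfl hef
        rw [h] at this
        simp at this
      have h5 := ih (W \ U) (by
        rw [card_sdiff_of_subset hU1, hW, hU2, Nat.mul_add, Nat.mul_one, Nat.add_sub_cancel])
      calc (n.factorial) ^ (r - 1) = 1 * (n.factorial) ^ (r - 1) := (one_mul _).symm
        _ ≤ _ := Nat.mul_le_mul h4 h5
    rw [card_powersetCard, hW] at h3
    have h4 := pow_le_choose' (n + 1) r
    have h5 : (n + 1) ^ r * (n.factorial) ^ (r - 1) ≤ (matchings r W).card * (n + 1) :=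
      (Nat.mul_le_mul h4 le_rfl).trans (h3.trans (h1.trans_eq h2))
    have h6 : (n + 1) ^ r * (n.factorial) ^ (r - 1) =
        ((n + 1).factorial) ^ (r - 1) * (n + 1) := by
      obtain ⟨s, rfl⟩ : ∃ s, r = s + 1 := ⟨r - 1, by omega⟩
      rw [Nat.add_sub_cancel, Nat.factorial_succ, mul_pow, pow_succ]
      ring
    rw [h6] at h5
    exact Nat.le_of_mul_le_mul_right h5 (Nat.succ_pos n)

/-- the first moment bound -/
theorem first_moment (PP : Finset (List Bool)) {r : ℕ} (hr : 0 < r) {W : Finset ℕ} {n : ℕ}
    (hW : W.card = r * n) (k : ℕ) (S : Finset (Finset (Finset ℕ))) (hS : S ⊆ matchings r W)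
    (hS2 : ∀ M ∈ S, ∃ K ⊆ M, K.card = k ∧ IsClique PP K) :
    (k.factorial) ^ r * S.card ≤ (cm PP r (range (r * k))).card * (matchings r W).card * n ^ k := by
  classical
  have h1 := double_upper PP W k S hS hS2
  have h2 := double_lower hr W k
  have h3 : ∑ M ∈ matchings r W, (M.powersetCard k).card =
      (matchings r W).card * n.choose k := by
    rw [← smul_eq_mul, ← sum_const]
    refine sum_congr rfl fun M hM => ?_
    have h3 := matching_card (mem_matchings.mp hM)
    rw [hW] at h3
    rw [card_powersetCard, (Nat.eq_of_mul_eq_mul_left hr h3).symm]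
  have h4 : (matchings r (range (r * k))).card *
      ∑ U ∈ W.powersetCard (r * k), (cm PP r U).card * (matchings r (W \ U)).card =
      (cm PP r (range (r * k))).card *
      ∑ U ∈ W.powersetCard (r * k), (matchings r U).card * (matchings r (W \ U)).card := by
    rw [mul_sum, mul_sum]
    refine sum_congr rfl fun U hU => ?_
    obtain ⟨_, hU2⟩ := mem_powersetCard.mp hU
    rw [matchings_card r U, cm_card PP r U, hU2]
    ring
  have h5 := matchings_lower hr k (range (r * k)) (card_range _)
  have h6 : n.choose k * k.factorial ≤ n ^ k := by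
    rw [mul_comm, ← Nat.descFactorial_eq_factorial_mul_choose]
    exact Nat.descFactorial_le_pow n k
  obtain ⟨s, rfl⟩ : ∃ s, r = s + 1 := ⟨r - 1, by omega⟩
  rw [Nat.add_sub_cancel] at h5
  calc (k.factorial) ^ (s + 1) * S.card = k.factorial * ((k.factorial) ^ s * S.card) := by
        rw [pow_succ]; ring
    _ ≤ k.factorial * ((matchings (s + 1) (range ((s + 1) * k))).card *
        ∑ U ∈ W.powersetCard ((s + 1) * k),
          (cm PP (s + 1) U).card * (matchings (s + 1) (W \ U)).card) :=
      Nat.mul_le_mul le_rfl (Nat.mul_le_mul h5 h1)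
    _ ≤ k.factorial * ((cm PP (s + 1) (range ((s + 1) * k))).card *
        ((matchings (s + 1) W).card * n.choose k)) := by
      rw [h4]
      exact Nat.mul_le_mul le_rfl (Nat.mul_le_mul le_rfl (h2.trans_eq h3))
    _ = (cm PP (s + 1) (range ((s + 1) * k))).card * (matchings (s + 1) W).card *
        (n.choose k * k.factorial) := by ring
    _ ≤ _ := Nat.mul_le_mul le_rfl h6

end Pool.Agent.R105.HM
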