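import Mathlib

/-!
# Patterns of pairs of finite sets
-/

set_option autoImplicit false

open Finset

namespace Pool.Agent.R105.HM

/-- The word of two disjoint sets: their elements in increasing order, with the letter `true` (`A`)
for the elements of `e` and the letter `false` (`B`) for the elements of `f`. -/
def word (e f : Finset ℕ) : List Bool := ((e ∪ f).sort (· ≤ ·)).map (fun x => decide (x ∈ e))

/-- the `i`-th smallest element of `e` (counted from `0`) -/
def nth (e : Finset ℕ) (i : ℕ) : ℕ := (e.sort (· ≤ ·)).getD i 0

/-- the number of elements of `e` below `t` -/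
def bel (e : Finset ℕ) (t : ℕ) : ℕ := (e.filter (· < t)).card

theorem split_at (L : List ℕ) (h : L.Pairwise (· < ·)) (t : ℕ) :
    L = L.filter (fun x => decide (x < t)) ++ L.filter (fun x => !decide (x < t)) := by
  induction L with
  | nil => rfl
  | cons x L ih =>
    rw [List.pairwise_cons] at h
    by_cases hx : x < t
    · rw [List.filter_cons_of_pos (by simpa using hx), List.filter_cons_of_neg (by simpa using hx),
        List.cons_append, ← ih h.2]
    · have h1 : L.filter (fun x => decide (x < t)) = [] := by
        rw [List.filter_eq_nil_iff]
        intro y hy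
        have := h.1 y hy
        simp; omega
      have h2 : L.filter (fun x => !decide (x < t)) = L := by
        rw [List.filter_eq_self]
        intro y hy
        have := h.1 y hy
        simp; omega
      rw [List.filter_cons_of_neg (by simpa using hx), List.filter_cons_of_pos (by simpa using hx),
        h1, h2]
      rfl

theorem sort_pw (S : Finset ℕ) : (S.sort (· ≤ ·)).Pairwise (· < ·) := by
  have := S.sortedLT_sort
  exact this.pairwise

theorem length_filter_sort (S : Finset ℕ) (p : ℕ → Bool) :
    ((S.sort (· ≤ ·)).filter p).length = (S.filter (fun x => p x = true)).card := by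
  rw [← List.toFinset_card_of_nodup ((sort_nodup S _).filter _), List.toFinset_filter,
    sort_toFinset]

theorem nth_lt_iff {e : Finset ℕ} {i t : ℕ} (hi : i < e.card) : nth e i < t ↔ i < bel e t := by
  have h1 := split_at (e.sort (· ≤ ·)) (sort_pw e) t
  have h2 : bel e t = ((e.sort (· ≤ ·)).filter (fun x => decide (x < t))).length := by
    rw [length_filter_sort]
    unfold bel
    congr 1
    ext x; simp
  have hlen : (e.sort (· ≤ ·)).length = e.card := length_sort _
  unfold nth
  rw [h2]
  set F1 := (e.sort (· ≤ ·)).filter (fun x => decide (x < t)) with hF1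
  set F2 := (e.sort (· ≤ ·)).filter (fun x => !decide (x < t)) with hF2
  rw [h1]
  have hl : i < (F1 ++ F2).length := by rw [← h1, hlen]; exact hi
  rw [List.getD_eq_getElem _ _ hl]
  constructor
  · intro h
    by_contra hcon
    push Not at hcon
    rw [List.getElem_append_right hcon] at h
    have h3 := List.getElem_mem (l := F2) (n := i - F1.length)
      (by rw [List.length_append] at hl; omega)
    have h4 := (List.mem_filter.mp h3).2
    simp only [Bool.not_eq_true', decide_eq_false_iff_not, not_lt] at h4
    omega
  · intro h
    rw [List.getElem_append_left h]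
    have h3 := List.getElem_mem h
    have h4 := (List.mem_filter.mp h3).2
    simpa using h4

theorem nth_mem {e : Finset ℕ} {i : ℕ} (hi : i < e.card) : nth e i ∈ e := by
  unfold nth
  rw [List.getD_eq_getElem _ _ (by rw [length_sort]; exact hi)]
  have := List.getElem_mem (l := e.sort (· ≤ ·)) (n := i) (by rw [length_sort]; exact hi)
  exact (mem_sort _).mp this

theorem exists_nth {e : Finset ℕ} {x : ℕ} (hx : x ∈ e) : ∃ i, i < e.card ∧ nth e i = x := by
  have h1 := (mem_sort (· ≤ ·)).mpr hx
  obtain ⟨i, hi, h2⟩ := List.getElem_of_mem h1
  refine ⟨i, by rw [length_sort] at hi; exact hi, ?_⟩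
  unfold nth
  rw [List.getD_eq_getElem _ _ hi, h2]

theorem nth_lt_nth {e : Finset ℕ} {i j : ℕ} (hij : i < j) (hj : j < e.card) :
    nth e i < nth e j := by
  unfold nth
  rw [List.getD_eq_getElem _ _ (by rw [length_sort]; omega),
    List.getD_eq_getElem _ _ (by rw [length_sort]; omega)]
  exact List.pairwise_iff_getElem.mp (sort_pw e) i j _ _ hij

/-- in the word `w` the `i`-th letter `A` comes before the `j`-th letter `B` -/
def R (w : List Bool) (i j : ℕ) : Prop :=
  ∃ p, i < (w.take p).count true ∧ (w.take p).count false ≤ j

theorem count_map_true (l : List ℕ) (e : Finset ℕ) :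
    (l.map (fun x => decide (x ∈ e))).count true = (l.filter (fun x => decide (x ∈ e))).length := by
  induction l with
  | nil => rfl
  | cons x l ih =>
    by_cases hx : x ∈ e
    · simp [hx, ih]
    · simp [hx, ih]

theorem count_map_false (l : List ℕ) (e : Finset ℕ) :
    (l.map (fun x => decide (x ∈ e))).count false =
      (l.filter (fun x => !decide (x ∈ e))).length := by
  induction l with
  | nil => rfl
  | cons x l ih =>
    by_cases hx : x ∈ e
    · simp [hx, ih]
    · simp [hx, ih]

theorem take_filter {S : Finset ℕ} (t : ℕ) : (S.sort (· ≤ ·)).take
    ((S.sort (· ≤ ·)).filter (fun x => decide (x < t))).length =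
    (S.sort (· ≤ ·)).filter (fun x => decide (x < t)) := by
  have h1 := split_at (S.sort (· ≤ ·)) (sort_pw S) t
  conv_lhs => rw [h1]
  rw [List.filter_append]
  have h2 : (List.filter (fun x => decide (x < t)) (List.filter (fun x => !decide (x < t))
      (S.sort (· ≤ ·)))) = [] := by
    rw [List.filter_eq_nil_iff]
    intro y hy
    have := (List.mem_filter.mp hy).2
    simpa using this
  rw [h2, List.append_nil]
  have h3 : (List.filter (fun x => decide (x < t)) (List.filter (fun x => decide (x < t))
      (S.sort (· ≤ ·)))) = (List.filter (fun x => decide (x < t)) (S.sort (· ≤ ·))) := by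
    rw [List.filter_filter]; simp
  rw [h3]
  simp

theorem exists_threshold (S : Finset ℕ) (p : ℕ) : ∃ t, (S.sort (· ≤ ·)).take p =
    (S.sort (· ≤ ·)).filter (fun x => decide (x < t)) := by
  set L := S.sort (· ≤ ·) with hL
  have hpw : L.Pairwise (· < ·) := sort_pw S
  rcases Nat.lt_or_ge p L.length with hp | hp
  · obtain ⟨t, ht⟩ : ∃ t, t = L[p] := ⟨_, rfl⟩
    refine ⟨t, ?_⟩
    have h1 : L = L.take p ++ L.drop p := (List.take_append_drop p L).symm
    conv_rhs => rw [h1]
    rw [List.filter_append]
    have h2 : (L.take p).filter (fun x => decide (x < t)) = L.take p := by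
      subst ht
      rw [List.filter_eq_self]
      intro x hx
      obtain ⟨i, hi, rfl⟩ := List.getElem_of_mem hx
      rw [List.getElem_take]
      rw [List.length_take] at hi
      simp only [decide_eq_true_eq]
      exact List.pairwise_iff_getElem.mp hpw i p _ _ (by omega)
    have h3 : (L.drop p).filter (fun x => decide (x < t)) = [] := by
      subst ht
      rw [List.filter_eq_nil_iff]
      intro x hx
      obtain ⟨i, hi, rfl⟩ := List.getElem_of_mem hx
      rw [List.getElem_drop]
      rw [List.length_drop] at hi
      simp only [decide_eq_true_eq, not_lt]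
      rcases Nat.eq_zero_or_pos i with rfl | h0
      · simp
      · exact (List.pairwise_iff_getElem.mp hpw p (p + i) _ _ (by omega)).le
    rw [h2, h3, List.append_nil]
  · refine ⟨L.sum + 1, ?_⟩
    rw [List.take_of_length_le hp]
    symm
    rw [List.filter_eq_self]
    intro x hx
    have := List.le_sum_of_mem hx
    simp only [decide_eq_true_eq]; omega

theorem count_true_word {e f : Finset ℕ} (t : ℕ) :
    (((e ∪ f).sort (· ≤ ·)).filter (fun x => decide (x < t)) |>.map
      (fun x => decide (x ∈ e))).count true = bel e t := by
  rw [count_map_true, List.filter_filter, length_filter_sort]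
  unfold bel
  congr 1
  ext x
  simp only [mem_filter, mem_union, Bool.and_eq_true, decide_eq_true_eq]
  tauto

theorem count_false_word {e f : Finset ℕ} (hd : Disjoint e f) (t : ℕ) :
    (((e ∪ f).sort (· ≤ ·)).filter (fun x => decide (x < t)) |>.map
      (fun x => decide (x ∈ e))).count false = bel f t := by
  rw [count_map_false, List.filter_filter, length_filter_sort]
  unfold bel
  congr 1
  ext x
  simp only [mem_filter, mem_union, Bool.and_eq_true, decide_eq_true_eq, Bool.not_eq_true',
    decide_eq_false_iff_not]
  constructor
  · rintro ⟨h1, h2, h3⟩
    exact ⟨h1.resolve_left h2, h3⟩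
  · rintro ⟨h1, h2⟩
    exact ⟨Or.inr h1, fun h => (Finset.disjoint_left.mp hd) h h1, h2⟩

theorem R_word_iff {e f : Finset ℕ} (hd : Disjoint e f) {i j : ℕ} (hi : i < e.card)
    (hj : j < f.card) : R (word e f) i j ↔ nth e i < nth f j := by
  unfold R word
  constructor
  · rintro ⟨p, h1, h2⟩
    rw [← List.map_take] at h1 h2
    obtain ⟨t, ht⟩ := exists_threshold (e ∪ f) p
    rw [ht, count_true_word] at h1
    rw [ht, count_false_word hd] at h2
    have h3 := (nth_lt_iff hi).mpr h1
    have h4 : ¬ nth f j < t := fun h => by
      have := (nth_lt_iff hj).mp h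
      omega
    omega
  · intro h
    refine ⟨(((e ∪ f).sort (· ≤ ·)).filter (fun x => decide (x < nth f j))).length, ?_, ?_⟩
    · rw [← List.map_take, take_filter, count_true_word]
      exact (nth_lt_iff hi).mp h
    · rw [← List.map_take, take_filter, count_false_word hd]
      by_contra hcon
      push Not at hcon
      have := (nth_lt_iff hj).mpr hcon
      omega

theorem word_count_true (e f : Finset ℕ) : (word e f).count true = e.card := by
  unfold word
  rw [count_map_true, length_filter_sort]
  congr 1
  ext x; simp

theorem word_count_false {e f : Finset ℕ} (hd : Disjoint e f) :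
    (word e f).count false = f.card := by
  unfold word
  rw [count_map_false, length_filter_sort]
  congr 1
  ext x
  simp only [mem_filter, mem_union, Bool.not_eq_true', decide_eq_false_iff_not]
  constructor
  · rintro ⟨h1, h2⟩
    exact h1.resolve_left h2
  · intro h1
    exact ⟨Or.inr h1, fun h => (Finset.disjoint_left.mp hd) h h1⟩

theorem R_zero {w : List Bool} (j : ℕ) (h : (w.head? = some true)) : R w 0 j := by
  refine ⟨1, ?_, ?_⟩
  · cases w with
    | nil => simp at h
    | cons b w => simp at h; subst h; simp
  · cases w with
    | nil => simp at h
    | cons b w => simp at h; subst h; simp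

theorem not_R_zero {w : List Bool} (h : (w.head? = some false)) : ¬ R w 0 0 := by
  rintro ⟨p, h1, h2⟩
  cases w with
  | nil => simp at h
  | cons b w =>
    simp at h; subst h
    cases p with
    | zero => simp at h1
    | succ p => simp at h2

/-! ### Splitting a word into blocks -/

/-- The word `w` is the concatenation of blocks `A^t B^t` or `B^t A^t`, `t ≥ 1`; the list of the
numbers `t` is `L`. -/
inductive Splits : List Bool → List ℕ → Prop
  | nil : Splits [] []
  | consA (t : ℕ) (w : List Bool) (L : List ℕ) : 0 < t → Splits w L →
      Splits (List.replicate t true ++ List.replicate t false ++ w) (t :: L)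
  | consB (t : ℕ) (w : List Bool) (L : List ℕ) : 0 < t → Splits w L →
      Splits (List.replicate t false ++ List.replicate t true ++ w) (t :: L)

/-- `w` is a block of length `2 t` followed by `w2` -/
def Blk (t : ℕ) (w w2 : List Bool) : Prop :=
  w = List.replicate t true ++ List.replicate t false ++ w2 ∨
    w = List.replicate t false ++ List.replicate t true ++ w2

theorem count_rep (b : Bool) (n : ℕ) : (List.replicate n b).count b = n := List.count_replicate_self

theorem count_rep' (n : ℕ) : (List.replicate n true).count false = 0 := by
  rw [List.count_replicate]; simp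

theorem count_rep'' (n : ℕ) : (List.replicate n false).count true = 0 := by
  rw [List.count_replicate]; simp

theorem Blk.count {t : ℕ} {w w2 : List Bool} (h : Blk t w w2) (b : Bool) :
    w.count b = t + w2.count b := by
  rcases h with rfl | rfl <;> cases b <;>
    simp only [List.count_append, count_rep, count_rep', count_rep''] <;> omega

/-- the counts in the prefixes of a block -/
theorem take_count_A (t p : ℕ) (w2 : List Bool) (hp : p ≤ 2 * t) :
    ((List.replicate t true ++ List.replicate t false ++ w2).take p).count true = min p t ∧
    ((List.replicate t true ++ List.replicate t false ++ w2).take p).count false = p - t := by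
  rw [List.append_assoc, List.take_append, List.take_append]
  simp only [List.length_replicate, List.take_replicate, List.count_append, count_rep,
    count_rep', count_rep'']
  have h1 : p - t - t = 0 := by omega
  rw [h1]
  simp only [List.take_zero, List.count_nil]
  omega

theorem take_count_B (t p : ℕ) (w2 : List Bool) (hp : p ≤ 2 * t) :
    ((List.replicate t false ++ List.replicate t true ++ w2).take p).count false = min p t ∧
    ((List.replicate t false ++ List.replicate t true ++ w2).take p).count true = p - t := by
  rw [List.append_assoc, List.take_append, List.take_append]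
  simp only [List.length_replicate, List.take_replicate, List.count_append, count_rep,
    count_rep', count_rep'']
  have h1 : p - t - t = 0 := by omega
  rw [h1]
  simp only [List.take_zero, List.count_nil]
  omega

theorem Blk.take_count {t : ℕ} {w w2 : List Bool} (h : Blk t w w2) (b : Bool) (p : ℕ) :
    (w.take (2 * t + p)).count b = t + (w2.take p).count b := by
  rcases h with rfl | rfl
  · rw [List.take_append, List.take_of_length_le (by simp; omega)]
    simp only [List.length_append, List.length_replicate]
    rw [show 2 * t + p - (t + t) = p by omega, List.count_append, List.count_append]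
    cases b <;> simp only [count_rep, count_rep', count_rep''] <;> omega
  · rw [List.take_append, List.take_of_length_le (by simp; omega)]
    simp only [List.length_append, List.length_replicate]
    rw [show 2 * t + p - (t + t) = p by omega, List.count_append, List.count_append]
    cases b <;> simp only [count_rep, count_rep', count_rep''] <;> omega

theorem Blk.small {t : ℕ} {w w2 : List Bool} (h : Blk t w w2) (p : ℕ) (hp : p ≤ 2 * t) :
    (w.take p).count true ≤ t ∧ (w.take p).count false ≤ t := by
  rcases h with rfl | rfl
  · obtain ⟨h1, h2⟩ := take_count_A t p w2 hp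
    omega
  · obtain ⟨h1, h2⟩ := take_count_B t p w2 hp
    omega

theorem Blk.R_shift {t : ℕ} {w w2 : List Bool} (h : Blk t w w2) (i j : ℕ) :
    R w (i + t) (j + t) ↔ R w2 i j := by
  constructor
  · rintro ⟨p, h1, h2⟩
    rcases Nat.le_total p (2 * t) with hp | hp
    · have := (h.small p hp).1
      omega
    · obtain ⟨q, rfl⟩ := Nat.exists_eq_add_of_le hp
      rw [h.take_count] at h1 h2
      exact ⟨q, by omega, by omega⟩
  · rintro ⟨p, h1, h2⟩
    refine ⟨2 * t + p, ?_, ?_⟩
    · rw [h.take_count]; omega
    · rw [h.take_count]; omega

/-- `a` is a cut of `w`: the first `2 a` letters contain the same number of both letters -/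
def Cut (w : List Bool) (a : ℕ) : Prop := R w (a - 1) a ∧ ¬ R w a (a - 1)

theorem Blk.not_cut {t : ℕ} {w w2 : List Bool} (h : Blk t w w2) {a : ℕ} (ha : 0 < a)
    (hat : a < t) : ¬ Cut w a := by
  rintro ⟨h1, h2⟩
  rcases h with rfl | rfl
  · apply h2
    obtain ⟨h3, h4⟩ := take_count_A t t w2 (by omega)
    exact ⟨t, by omega, by omega⟩
  · obtain ⟨p, hp1, hp2⟩ := h1
    rcases Nat.le_total p (2 * t) with hp | hp
    · obtain ⟨h3, h4⟩ := take_count_B t p w2 hp
      omega
    · obtain ⟨q, rfl⟩ := Nat.exists_eq_add_of_le hp
      have hB : Blk t (List.replicate t false ++ List.replicate t true ++ w2) w2 := Or.inr rfl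
      rw [hB.take_count] at hp2
      omega

theorem Blk.cut_self {t : ℕ} {w w2 : List Bool} (h : Blk t w w2) (ht : 0 < t) : Cut w t := by
  constructor
  · refine ⟨2 * t + 0, ?_, ?_⟩
    · rw [h.take_count]; omega
    · rw [h.take_count]; simp
  · rintro ⟨p, h1, h2⟩
    rcases Nat.le_total p (2 * t) with hp | hp
    · have := (h.small p hp).1
      omega
    · obtain ⟨q, rfl⟩ := Nat.exists_eq_add_of_le hp
      rw [h.take_count] at h1 h2
      omega

theorem Blk.cut_shift {t : ℕ} {w w2 : List Bool} (h : Blk t w w2) {a : ℕ} (ha : 0 < a) :
    Cut w (a + t) ↔ Cut w2 a := by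
  unfold Cut
  rw [← h.R_shift, ← h.R_shift, show a + t - 1 = a - 1 + t by omega]

theorem splits_cons {w : List Bool} {t : ℕ} {L : List ℕ} (h : Splits w (t :: L)) :
    0 < t ∧ ∃ w2, Blk t w w2 ∧ Splits w2 L := by
  cases h with
  | consA _ w2 _ ht h => exact ⟨ht, w2, Or.inl rfl, h⟩
  | consB _ w2 _ ht h => exact ⟨ht, w2, Or.inr rfl, h⟩

theorem splits_nil {w : List Bool} (h : Splits w []) : w = [] := by
  cases h; rfl

/-- the composition is determined by the cuts -/
theorem splits_unique : ∀ (L L' : List ℕ) (w w' : List Bool), Splits w L → Splits w' L' →
    w.count true = w'.count true → (∀ a, 0 < a → a < w.count true → (Cut w a ↔ Cut w' a)) →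
    L = L' := by
  intro L
  induction L with
  | nil =>
    intro L' w w' h h' hc _
    cases L' with
    | nil => rfl
    | cons t' L' =>
      obtain ⟨ht', w2, hB, _⟩ := splits_cons h'
      rw [splits_nil h, hB.count] at hc
      simp at hc
      omega
  | cons t L ih =>
    intro L' w w' h h' hc hcut
    obtain ⟨ht, w2, hB, hS⟩ := splits_cons h
    cases L' with
    | nil =>
      rw [splits_nil h', hB.count] at hc
      simp at hc
      omega
    | cons t' L' =>
      obtain ⟨ht', w2', hB', hS'⟩ := splits_cons h'
      have e1 := hB.count true
      have e2 := hB'.count true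
      rcases Nat.lt_trichotomy t t' with h1 | h1 | h1
      · exact absurd ((hcut t ht (by omega)).mp (hB.cut_self ht)) (hB'.not_cut ht h1)
      · subst h1
        congr 1
        refine ih L' w2 w2' hS hS' (by omega) fun a ha ha2 => ?_
        rw [← hB.cut_shift ha, ← hB'.cut_shift ha]
        exact hcut _ (by omega) (by omega)
      · exact absurd ((hcut t' ht' (by omega)).mpr (hB'.cut_self ht')) (hB.not_cut ht' h1)

/-- a word begins with a run -/
theorem exists_run (b : Bool) (w : List Bool) : ∃ (t : ℕ) (v : List Bool),
    w = List.replicate t b ++ v ∧ (v = [] ∨ v.head? = some (!b)) := by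
  induction w with
  | nil => exact ⟨0, [], rfl, Or.inl rfl⟩
  | cons c w ih =>
    by_cases hc : c = b
    · obtain ⟨t, v, h1, h2⟩ := ih
      refine ⟨t + 1, v, ?_, h2⟩
      rw [hc, h1, List.replicate_succ, List.cons_append]
    · refine ⟨0, c :: w, rfl, Or.inr ?_⟩
      simp only [List.head?_cons, Option.some.injEq]
      cases c <;> cases b <;> simp_all

theorem take_two (a b : Bool) (hab : a ≠ b) (t u p : ℕ) (v : List Bool) :
    ((List.replicate t a ++ (List.replicate u b ++ v)).take p).count a =
      min p t + (v.take (p - t - u)).count a ∧
    ((List.replicate t a ++ (List.replicate u b ++ v)).take p).count b =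
      min (p - t) u + (v.take (p - t - u)).count b := by
  rw [List.take_append, List.take_append]
  simp only [List.length_replicate, List.take_replicate, List.count_append, List.count_replicate]
  cases a <;> cases b <;> simp_all

theorem splits_exists : ∀ (r : ℕ) (w : List Bool), w.count true = r → w.count false = r →
    (∀ i j k, i < r → j < r → k < r → R w i j → R w j k → R w i k) →
    (∀ i j k, i < r → j < r → k < r → ¬ R w i j → ¬ R w j k → ¬ R w i k) → ∃ L, Splits w L := by
  intro r
  induction r using Nat.strong_induction_on with
  | _ r ih =>
  intro w hc1 hc2 hT hT'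
  -- the inductive step once a block is found
  have hstep : ∀ (t : ℕ) (w2 : List Bool), 0 < t → Blk t w w2 → ∃ L, Splits w2 L := by
    intro t w2 ht hB
    have e1 := hB.count true
    have e2 := hB.count false
    refine ih (r - t) (by omega) w2 (by omega) (by omega) ?_ ?_
    · intro i j k hi hj hk h1 h2
      rw [← hB.R_shift] at h1 h2 ⊢
      exact hT _ _ _ (by omega) (by omega) (by omega) h1 h2
    · intro i j k hi hj hk h1 h2
      rw [← hB.R_shift] at h1 h2 ⊢
      exact hT' _ _ _ (by omega) (by omega) (by omega) h1 h2
  obtain ⟨t, v, hw, hv⟩ := exists_run true w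
  rcases Nat.eq_zero_or_pos t with rfl | ht
  · -- the word is empty or begins with `false`
    simp only [List.replicate_zero, List.nil_append] at hw
    subst hw
    rcases hv with rfl | hv
    · exact ⟨[], Splits.nil⟩
    obtain ⟨t, v, hw, hv1⟩ := exists_run false w
    have ht : 0 < t := by
      rcases Nat.eq_zero_or_pos t with rfl | h
      · simp only [List.replicate_zero, List.nil_append] at hw
        subst hw
        rcases hv1 with rfl | h1
        · simp at hv
        · rw [hv] at h1; simp at h1
      · exact h
    obtain ⟨u, v2, hw2, hv2⟩ := exists_run true v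
    have hu : 0 < u := by
      rcases Nat.eq_zero_or_pos u with rfl | h
      · exfalso
        simp only [List.replicate_zero, List.nil_append] at hw2
        rcases hv1 with h1 | h1
        · rw [hw, h1, List.append_nil, count_rep] at hc2
          rw [hw, h1, List.append_nil, count_rep''] at hc1
          omega
        · rw [hw2] at h1
          rcases hv2 with h2 | h2
          · rw [h2] at h1; simp at h1
          · rw [h1] at h2; simp at h2
      · exact h
    have hcnt := fun p => take_two false true (by simp) t u p v2
    rw [← hw2, ← hw] at hcnt
    have htu : t ≤ u := by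
      by_contra hcon
      push Not at hcon
      rcases hv2 with h2 | h2
      · rw [h2, List.append_nil] at hw2
        rw [hw, hw2, List.count_append, count_rep, count_rep'] at hc2
        rw [hw, hw2, List.count_append, count_rep, count_rep''] at hc1
        omega
      · obtain ⟨v3, hv3⟩ : ∃ v3, v2 = false :: v3 := by
          cases v2 with
          | nil => simp at h2
          | cons c v3 => simp at h2; exact ⟨v3, by rw [h2]⟩
        have htr : t < r := by
          rw [hw, hw2, hv3] at hc2
          simp only [List.count_append, count_rep, count_rep', List.count_cons_self] at hc2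
          omega
        have hge : ∀ q, 1 ≤ q → 1 ≤ (v2.take q).count false := by
          intro q hq
          obtain ⟨q', rfl⟩ : ∃ q', q = q' + 1 := ⟨q - 1, by omega⟩
          rw [hv3, List.take_succ_cons, List.count_cons_self]
          omega
        refine hT' 0 u t (by omega) (by omega) htr ?_ ?_ ?_
        · rintro ⟨p, h3, h4⟩
          obtain ⟨h5, h6⟩ := hcnt p
          rw [h6] at h3
          rw [h5] at h4
          have h7 : (v2.take (p - t - u)).count true ≤ p - t - u :=
            List.count_le_length.trans (by rw [List.length_take]; omega)
          omega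
        · rintro ⟨p, h3, h4⟩
          obtain ⟨h5, h6⟩ := hcnt p
          rw [h6] at h3
          rw [h5] at h4
          have h7 : (v2.take (p - t - u)).count true ≤ p - t - u :=
            List.count_le_length.trans (by rw [List.length_take]; omega)
          have h8 := hge (p - t - u)
          omega
        · refine ⟨t + 1, ?_, ?_⟩
          · rw [(hcnt (t + 1)).2]; omega
          · rw [(hcnt (t + 1)).1]
            rw [show t + 1 - t - u = 0 by omega]
            simp
    have hB : Blk t w (List.replicate (u - t) true ++ v2) := by
      right
      rw [hw, hw2]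
      rw [show List.replicate u true = List.replicate t true ++ List.replicate (u - t) true by
        rw [List.replicate_append_replicate]; congr 1; omega]
      simp only [List.append_assoc]
    obtain ⟨L, hL⟩ := hstep t _ ht hB
    rcases hB with h | h
    · exact ⟨t :: L, h ▸ Splits.consA t _ L ht hL⟩
    · exact ⟨t :: L, h ▸ Splits.consB t _ L ht hL⟩
  · obtain ⟨u, v2, hw2, hv2⟩ := exists_run false v
    have hu : 0 < u := by
      rcases Nat.eq_zero_or_pos u with rfl | h
      · exfalso
        simp only [List.replicate_zero, List.nil_append] at hw2
        rcases hv with h1 | h1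
        · rw [hw, h1, List.append_nil, count_rep] at hc1
          rw [hw, h1, List.append_nil, count_rep'] at hc2
          omega
        · rw [hw2] at h1
          rcases hv2 with h2 | h2
          · rw [h2] at h1; simp at h1
          · rw [h1] at h2; simp at h2
      · exact h
    have hcnt := fun p => take_two true false (by simp) t u p v2
    rw [← hw2, ← hw] at hcnt
    have htu : t ≤ u := by
      by_contra hcon
      push Not at hcon
      rcases hv2 with h2 | h2
      · rw [h2, List.append_nil] at hw2
        rw [hw, hw2, List.count_append, count_rep, count_rep''] at hc1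
        rw [hw, hw2, List.count_append, count_rep, count_rep'] at hc2
        omega
      · obtain ⟨v3, hv3⟩ : ∃ v3, v2 = true :: v3 := by
          cases v2 with
          | nil => simp at h2
          | cons c v3 => simp at h2; exact ⟨v3, by rw [h2]⟩
        have htr : t < r := by
          rw [hw, hw2, hv3] at hc1
          simp only [List.count_append, count_rep, count_rep'', List.count_cons_self] at hc1
          omega
        have h9 : R w t 0 := by
          refine hT t u 0 htr (by omega) (by omega) ?_ ?_
          · refine ⟨t + u + 1, ?_, ?_⟩
            · rw [(hcnt (t + u + 1)).1, hv3, show t + u + 1 - t - u = 1 by omega]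
              simp; omega
            · rw [(hcnt (t + u + 1)).2, hv3, show t + u + 1 - t - u = 1 by omega]
              simp
          · refine ⟨t, ?_, ?_⟩
            · rw [(hcnt t).1]; omega
            · rw [(hcnt t).2, show t - t - u = 0 by omega]
              simp
        obtain ⟨p, h3, h4⟩ := h9
        obtain ⟨h5, h6⟩ := hcnt p
        rw [h5] at h3
        rw [h6] at h4
        have h7 : (v2.take (p - t - u)).count true ≤ p - t - u :=
          List.count_le_length.trans (by rw [List.length_take]; omega)
        omega
    have hB : Blk t w (List.replicate (u - t) false ++ v2) := by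
      left
      rw [hw, hw2]
      rw [show List.replicate u false = List.replicate t false ++ List.replicate (u - t) false by
        rw [List.replicate_append_replicate]; congr 1; omega]
      simp only [List.append_assoc]
    obtain ⟨L, hL⟩ := hstep t _ ht hB
    rcases hB with h | h
    · exact ⟨t :: L, h ▸ Splits.consA t _ L ht hL⟩
    · exact ⟨t :: L, h ▸ Splits.consB t _ L ht hL⟩

/-- three sets of size `r`, pairwise with the same word: the word splits into blocks -/
theorem splits_of_three {r : ℕ} {e f g : Finset ℕ} (he : e.card = r) (hf : f.card = r)
    (hg : g.card = r) (hef : Disjoint e f) (hfg : Disjoint f g) (heg : Disjoint e g)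
    {w : List Bool} (h1 : word e f = w) (h2 : word f g = w) (h3 : word e g = w) :
    ∃ L, Splits w L := by
  have k1 : ∀ {i j : ℕ}, i < r → j < r → (R w i j ↔ nth e i < nth f j) := fun hi hj => by
    rw [← h1]; exact R_word_iff hef (by omega) (by omega)
  have k2 : ∀ {i j : ℕ}, i < r → j < r → (R w i j ↔ nth f i < nth g j) := fun hi hj => by
    rw [← h2]; exact R_word_iff hfg (by omega) (by omega)
  have k3 : ∀ {i j : ℕ}, i < r → j < r → (R w i j ↔ nth e i < nth g j) := fun hi hj => by
    rw [← h3]; exact R_word_iff heg (by omega) (by omega)
  refine splits_exists r w ?_ ?_ ?_ ?_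
  · rw [← h1, word_count_true, he]
  · rw [← h1, word_count_false hef, hf]
  · intro i j k hi hj hk a b
    rw [k1 hi hj] at a
    rw [k2 hj hk] at b
    rw [k3 hi hk]
    omega
  · intro i j k hi hj hk a b
    rw [k1 hi hj] at a
    rw [k2 hj hk] at b
    rw [k3 hi hk]
    omega

end Pool.Agent.R105.HM
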