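import Pool.Agent.R105.HM.MT
import Pool.Agent.R105.HM.Words
import Pool.Agent.Y47.BU.Ram

/-!
# Cliques of pairwise non-harmonious patterns contain no large grid
-/

set_option autoImplicit false

open Finset

namespace Pool.Agent.R105.HM

/-- The disjoint sets `e` and `f` form the pattern `P`: the letter `A = true` stands for the
elements of the set which contains the smallest element. -/
def Form (e f : Finset ℕ) (P : List Bool) : Prop :=
  P.head? = some true ∧ (word e f = P ∨ word f e = P)

/-- every two sets of `K` form a pattern of `PP` -/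
def IsClique (PP : Finset (List Bool)) (K : Finset (Finset ℕ)) : Prop :=
  ∀ e ∈ K, ∀ f ∈ K, e ≠ f → ∃ P ∈ PP, Form e f P

/-- `P` and `Q` are distinct and split into blocks with the same composition -/
def Harmonious (P Q : List Bool) : Prop := P ≠ Q ∧ ∃ L, Splits P L ∧ Splits Q L

theorem final {r j : ℕ} (hj : j < r) (G : Fin 4 → Fin 4 → Finset ℕ)
    (hcard : ∀ i k, (G i k).card = r) (hdisj : ∀ i i' k k', i < i' → Disjoint (G i k) (G i' k'))
    (hjj : ∀ i i' k k', k < k' → nth (G i k) j < nth (G i' k') j)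
    {p p' : List Bool} (hinc : ∀ i i' k k', i < i' → k < k' → word (G i k) (G i' k') = p)
    (hdec : ∀ i i' k k', i < i' → k' < k → word (G i k) (G i' k') = p') : Harmonious p p' := by
  have kinc : ∀ i i' k k', i < i' → k < k' → ∀ {a b : ℕ}, a < r → b < r →
      (R p a b ↔ nth (G i k) a < nth (G i' k') b) := by
    intro i i' k k' hi hk a b ha hb
    rw [← hinc i i' k k' hi hk]
    exact R_word_iff (hdisj _ _ _ _ hi) (by rw [hcard]; exact ha) (by rw [hcard]; exact hb)
  have kdec : ∀ i i' k k', i < i' → k' < k → ∀ {a b : ℕ}, a < r → b < r →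
      (R p' a b ↔ nth (G i k) a < nth (G i' k') b) := by
    intro i i' k k' hi hk a b ha hb
    rw [← hdec i i' k k' hi hk]
    exact R_word_iff (hdisj _ _ _ _ hi) (by rw [hcard]; exact ha) (by rw [hcard]; exact hb)
  refine ⟨?_, ?_⟩
  · intro hpp
    have h1 : R p j j := (kinc 0 1 0 1 (by decide) (by decide) hj hj).mpr
      (hjj _ _ _ _ (by decide))
    rw [hpp] at h1
    have h2 := (kdec 0 1 1 0 (by decide) (by decide) hj hj).mp h1
    have h3 := hjj 1 0 0 1 (by decide)
    omega
  · obtain ⟨L, hL⟩ := splits_of_three (hcard 0 0) (hcard 1 1) (hcard 2 2)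
      (hdisj _ _ _ _ (by decide)) (hdisj _ _ _ _ (by decide)) (hdisj _ _ _ _ (by decide))
      (hinc 0 1 0 1 (by decide) (by decide)) (hinc 1 2 1 2 (by decide) (by decide))
      (hinc 0 2 0 2 (by decide) (by decide))
    obtain ⟨L', hL'⟩ := splits_of_three (hcard 0 2) (hcard 1 1) (hcard 2 0)
      (hdisj _ _ _ _ (by decide)) (hdisj _ _ _ _ (by decide)) (hdisj _ _ _ _ (by decide))
      (hdec 0 1 2 1 (by decide) (by decide)) (hdec 1 2 1 0 (by decide) (by decide))
      (hdec 0 2 2 0 (by decide) (by decide))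
    have hc1 : p.count true = r := by
      rw [← hinc 0 1 0 1 (by decide) (by decide), word_count_true, hcard]
    have hc2 : p'.count true = r := by
      rw [← hdec 0 1 1 0 (by decide) (by decide), word_count_true, hcard]
    have hLL : L = L' := by
      refine splits_unique L L' p p' hL hL' (by rw [hc1, hc2]) fun a ha har => ?_
      rw [hc1] at har
      have hl : ∀ i k, nth (G i k) (a - 1) < nth (G i k) a := fun i k =>
        nth_lt_nth (by omega) (by rw [hcard]; exact har)
      have cinc : ∀ i i' k k', i < i' → k < k' → (Cut p a ↔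
          nth (G i k) (a - 1) < nth (G i' k') a ∧ ¬ nth (G i k) a < nth (G i' k') (a - 1)) := by
        intro i i' k k' hi hk
        unfold Cut
        rw [kinc i i' k k' hi hk (by omega) har, kinc i i' k k' hi hk har (by omega)]
      have cdec : ∀ i i' k k', i < i' → k' < k → (Cut p' a ↔
          nth (G i k) (a - 1) < nth (G i' k') a ∧ ¬ nth (G i k) a < nth (G i' k') (a - 1)) := by
        intro i i' k k' hi hk
        unfold Cut
        rw [kdec i i' k k' hi hk (by omega) har, kdec i i' k k' hi hk har (by omega)]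
      by_contra hne
      rcases Classical.em (Cut p a) with h1 | h1
      · have h2 : ¬ Cut p' a := fun h => hne ⟨fun _ => h, fun _ => h1⟩
        have a1 := (cinc 0 2 1 3 (by decide) (by decide)).mp h1
        have a2 := (cinc 0 3 1 2 (by decide) (by decide)).mp h1
        have a3 := (cinc 1 2 0 3 (by decide) (by decide)).mp h1
        have a4 := (cinc 1 3 0 2 (by decide) (by decide)).mp h1
        have b1 := (cdec 0 1 1 0 (by decide) (by decide)).not.mp h2
        have b2 := (cdec 2 3 3 2 (by decide) (by decide)).not.mp h2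
        have c1 := hl 0 1
        have c2 := hl 1 0
        have c3 := hl 2 3
        have c4 := hl 3 2
        omega
      · have h2 : Cut p' a := by
          by_contra h
          exact hne ⟨fun h' => absurd h' h1, fun h' => absurd h' h⟩
        have a1 := (cdec 0 2 2 0 (by decide) (by decide)).mp h2
        have a2 := (cdec 0 3 2 1 (by decide) (by decide)).mp h2
        have a3 := (cdec 1 2 3 0 (by decide) (by decide)).mp h2
        have a4 := (cdec 1 3 3 1 (by decide) (by decide)).mp h2
        have b1 := (cinc 0 1 2 3 (by decide) (by decide)).not.mp h1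
        have b2 := (cinc 2 3 0 1 (by decide) (by decide)).not.mp h1
        have c1 := hl 0 2
        have c2 := hl 1 3
        have c3 := hl 2 0
        have c4 := hl 3 1
        omega
    exact ⟨L, hL, hLL ▸ hL'⟩

/-- the permutation of a grid: exchange of the two lexicographic orders -/
def gridPerm (N : ℕ) : Equiv.Perm (Fin (N * N)) :=
  finProdFinEquiv.symm.trans ((Equiv.prodComm (Fin N) (Fin N)).trans finProdFinEquiv)

theorem gridPerm_apply (N : ℕ) (x y : Fin N) :
    gridPerm N (finProdFinEquiv (x, y)) = finProdFinEquiv (y, x) := by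
  unfold gridPerm
  simp only [Equiv.trans_apply, Equiv.symm_apply_apply, Equiv.prodComm_apply, Prod.swap_prod_mk]

theorem lex_lt (N : ℕ) (x x' y y' : Fin N) (h : x < x') :
    (finProdFinEquiv (x, y) : Fin (N * N)) < finProdFinEquiv (x', y') := by
  rw [Fin.lt_def]
  simp only [finProdFinEquiv_apply_val]
  have h1 : x.val + 1 ≤ x'.val := h
  have h2 := y.isLt
  have h3 := Nat.mul_le_mul_left N h1
  rw [Nat.mul_add, Nat.mul_one] at h3
  omega

/-- cliques of pairwise non-harmonious patterns contain no large grid -/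
theorem grid_free (PP : Finset (List Bool)) (hPP : ∀ P ∈ PP, ∀ Q ∈ PP, ¬ Harmonious P Q) :
    ∃ N : ℕ, ∀ (r : ℕ) (K : Finset (Finset ℕ)), (∀ e ∈ K, e.card = r) →
      (∀ e ∈ K, ∀ f ∈ K, e ≠ f → Disjoint e f) → IsClique PP K → ∀ j, j < r →
      ¬ Contains (gridPerm N) (K.image (fun e => (nth e 0, nth e j))) := by
  classical
  obtain ⟨N2, -, hN2⟩ := Pool.Agent.Y47.BU.ramsey
    (Option {P // P ∈ PP} × Option {P // P ∈ PP}) 4
  obtain ⟨N1, -, hN1⟩ := Pool.Agent.Y47.BU.ramsey (Fin N2 → Fin N2 → Option {P // P ∈ PP}) 4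
  refine ⟨max N1 N2, fun r K hcard hdisj hK j hj hcon => ?_⟩
  set N := max N1 N2 with hN
  obtain ⟨rr, cc, hrr, hcc, hE⟩ := hcon
  have h1 : ∀ i, ∃ e ∈ K, nth e 0 = rr i ∧ nth e j = cc (gridPerm N i) := by
    intro i
    obtain ⟨e, he, he2⟩ := mem_image.mp (hE i)
    exact ⟨e, he, congrArg Prod.fst he2, congrArg Prod.snd he2⟩
  choose E' hE'K hE'0 hE'j using h1
  -- the grid
  obtain ⟨F, hF⟩ : ∃ F : Fin N → Fin N2 → Finset ℕ, ∀ x y, F x y =
      E' (finProdFinEquiv (x, Fin.castLE (le_max_right N1 N2) y)) := ⟨_, fun _ _ => rfl⟩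
  have hFK : ∀ x y, F x y ∈ K := fun x y => by rw [hF]; exact hE'K _
  have hF0 : ∀ x x' y y', x < x' → nth (F x y) 0 < nth (F x' y') 0 := by
    intro x x' y y' h
    rw [hF, hF, hE'0, hE'0]
    exact hrr (lex_lt N _ _ _ _ h)
  have hFj : ∀ x x' y y', y < y' → nth (F x y) j < nth (F x' y') j := by
    intro x x' y y' h
    rw [hF, hF, hE'j, hE'j, gridPerm_apply, gridPerm_apply]
    exact hcc (lex_lt N _ _ _ _ h)
  have hFd : ∀ x x' y y', x < x' → Disjoint (F x y) (F x' y') := by
    intro x x' y y' h
    refine hdisj _ (hFK _ _) _ (hFK _ _) fun he => ?_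
    have := hF0 x x' y y' h
    rw [he] at this
    exact lt_irrefl _ this
  have hr : 0 < r := by omega
  have hword : ∀ x x' y y', x < x' → word (F x y) (F x' y') ∈ PP := by
    intro x x' y y' h
    have h0 := hF0 x x' y y' h
    obtain ⟨P, hP, hP1, hP2⟩ := hK _ (hFK x y) _ (hFK x' y') (fun he => by
      rw [he] at h0
      exact lt_irrefl _ h0)
    rcases hP2 with hP2 | hP2
    · rw [hP2]; exact hP
    · exfalso
      have h2 : R (word (F x' y') (F x y)) 0 0 := by
        rw [hP2]; exact R_zero 0 hP1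
      rw [R_word_iff (hFd x x' y y' h).symm (by rw [hcard _ (hFK _ _)]; exact hr)
        (by rw [hcard _ (hFK _ _)]; exact hr)] at h2
      omega
  obtain ⟨B1, c, -, hB1, hc⟩ := hN1 (Fin N) univ (by
    rw [card_univ, Fintype.card_fin]; exact le_max_left _ _)
    (fun x x' y y' => if h : word (F x y) (F x' y') ∈ PP then some ⟨_, h⟩ else none)
  obtain ⟨B2, d, -, hB2, hd⟩ := hN2 (Fin N2) univ (by
    rw [card_univ, Fintype.card_fin]) (fun y y' => (c y y', c y' y))
  set a := B1.orderEmbOfFin hB1 with ha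
  set b := B2.orderEmbOfFin hB2 with hb
  have haB : ∀ i, a i ∈ B1 := orderEmbOfFin_mem B1 hB1
  have hbB : ∀ i, b i ∈ B2 := orderEmbOfFin_mem B2 hB2
  have hcol : ∀ (i i' : Fin 4) (hi : i < i') (y y' : Fin N2), c y y' =
      some ⟨word (F (a i) y) (F (a i') y'), hword _ _ _ _ (a.strictMono hi)⟩ := by
    intro i i' hi y y'
    rw [← hc (a i) (haB i) (a i') (haB i') (a.strictMono hi)]
    exact dif_pos (hword _ _ _ _ (a.strictMono hi))
  have hd1 : ∀ k k' : Fin 4, k < k' → c (b k) (b k') = d.1 := by
    intro k k' hk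
    exact congrArg Prod.fst (hd (b k) (hbB k) (b k') (hbB k') (b.strictMono hk))
  have hd2 : ∀ k k' : Fin 4, k < k' → c (b k') (b k) = d.2 := by
    intro k k' hk
    exact congrArg Prod.snd (hd (b k) (hbB k) (b k') (hbB k') (b.strictMono hk))
  have h01 : (0 : Fin 4) < 1 := by decide
  set p := word (F (a 0) (b 0)) (F (a 1) (b 1)) with hp
  set p' := word (F (a 0) (b 1)) (F (a 1) (b 0)) with hp'
  refine hPP p (hword _ _ _ _ (a.strictMono h01)) p' (hword _ _ _ _ (a.strictMono h01)) ?_
  refine final hj (fun i k => F (a i) (b k)) (fun i k => hcard _ (hFK _ _))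
    (fun i i' k k' hi => hFd _ _ _ _ (a.strictMono hi))
    (fun i i' k k' hk => hFj _ _ _ _ (b.strictMono hk)) ?_ ?_
  · intro i i' k k' hi hk
    have e1 := hcol i i' hi (b k) (b k')
    have e2 := hcol 0 1 h01 (b 0) (b 1)
    rw [hd1 k k' hk] at e1
    rw [hd1 0 1 h01, e1] at e2
    have := Option.some.inj e2
    exact congrArg Subtype.val this
  · intro i i' k k' hi hk
    have e1 := hcol i i' hi (b k) (b k')
    have e2 := hcol 0 1 h01 (b 1) (b 0)
    rw [hd2 k' k hk] at e1
    rw [hd2 0 1 h01, e1] at e2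
    have := Option.some.inj e2
    exact congrArg Subtype.val this

end Pool.Agent.R105.HM
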