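import Mathlib

/-!
# The theorem of Marcus and Tardos and Klazar's reduction

Finite sets of pairs of natural numbers (0-1 matrices) which avoid a permutation matrix.
-/

set_option autoImplicit false

open Finset

namespace Pool.Agent.R105.HM

/-- the 0-1 matrix `A` contains the permutation matrix of `σ` -/
def Contains {m : ℕ} (σ : Equiv.Perm (Fin m)) (A : Finset (ℕ × ℕ)) : Prop :=
  ∃ r c : Fin m → ℕ, StrictMono r ∧ StrictMono c ∧ ∀ i, (r i, c (σ i)) ∈ A

theorem Contains.mono {m : ℕ} {σ : Equiv.Perm (Fin m)} {A B : Finset (ℕ × ℕ)} (h : A ⊆ B)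
    (hA : Contains σ A) : Contains σ B := by
  obtain ⟨r, c, hr, hc, h1⟩ := hA
  exact ⟨r, c, hr, hc, fun i => h (h1 i)⟩

theorem Contains.swap {m : ℕ} {σ : Equiv.Perm (Fin m)} {A : Finset (ℕ × ℕ)}
    (h : Contains σ⁻¹ (A.image Prod.swap)) : Contains σ A := by
  obtain ⟨r, c, hr, hc, h1⟩ := h
  refine ⟨c, r, hc, hr, fun i => ?_⟩
  obtain ⟨p, hp, hp2⟩ := mem_image.mp (h1 (σ i))
  have h2 : p = (c i, r (σ i)) := by
    have := congrArg Prod.swap hp2
    simpa using this
  rw [← h2]; exact hp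

/-- contraction of blocks of side `D` -/
def contr (D : ℕ) (p : ℕ × ℕ) : ℕ × ℕ := (p.1 / D, p.2 / D)

theorem contains_contr {m : ℕ} {σ : Equiv.Perm (Fin m)} {A : Finset (ℕ × ℕ)} (D : ℕ)
    (h : Contains σ (A.image (contr D))) : Contains σ A := by
  obtain ⟨r, c, hr, hc, h1⟩ := h
  have h2 : ∀ i, ∃ p ∈ A, p.1 / D = r i ∧ p.2 / D = c (σ i) := by
    intro i
    obtain ⟨p, hp, hp2⟩ := mem_image.mp (h1 i)
    refine ⟨p, hp, ?_, ?_⟩
    · exact congrArg Prod.fst hp2
    · exact congrArg Prod.snd hp2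
  choose f hf hf1 hf2 using h2
  refine ⟨fun i => (f i).1, fun j => (f (σ.symm j)).2, ?_, ?_, ?_⟩
  · intro i j hij
    have := hr hij
    rw [← hf1 i, ← hf1 j] at this
    exact Nat.lt_of_div_lt_div this
  · intro i j hij
    have := hc hij
    have e1 := hf2 (σ.symm i)
    have e2 := hf2 (σ.symm j)
    rw [σ.apply_symm_apply] at e1 e2
    rw [← e1, ← e2] at this
    exact Nat.lt_of_div_lt_div this
  · intro i
    simp only [Equiv.symm_apply_apply]
    exact hf i

/-- the columns (modulo `D`) of the points of `A` in the block `b` -/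
def bcols (D : ℕ) (A : Finset (ℕ × ℕ)) (b : ℕ × ℕ) : Finset ℕ :=
  (A.filter (fun p => contr D p = b)).image (fun p => p.2 % D)

/-- wide blocks in the block column `j` -/
theorem wide_bound {m : ℕ} {σ : Equiv.Perm (Fin m)} {A : Finset (ℕ × ℕ)} {D : ℕ} (hD : 0 < D)
    (hA : ¬ Contains σ A) (q j : ℕ) :
    ((range q).filter (fun i => m ≤ (bcols D A (i, j)).card)).card ≤ m * D.choose m := by
  classical
  by_contra hcon
  push Not at hcon
  set S := (range q).filter (fun i => m ≤ (bcols D A (i, j)).card) with hS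
  have h1 : ∀ i ∈ S, ∃ T ∈ (range D).powersetCard m, T ⊆ bcols D A (i, j) := by
    intro i hi
    obtain ⟨T, hT, hTm⟩ := exists_subset_card_eq (mem_filter.mp hi).2
    refine ⟨T, mem_powersetCard.mpr ⟨?_, hTm⟩, hT⟩
    intro x hx
    obtain ⟨p, _, hp⟩ := mem_image.mp (hT hx)
    rw [mem_range, ← hp]
    exact Nat.mod_lt _ hD
  choose! T hT1 hT2 using h1
  have h2 : ((range D).powersetCard m).card * m < S.card := by
    rw [card_powersetCard, card_range, mul_comm]; exact hcon
  obtain ⟨T0, hT0, hT0c⟩ := exists_lt_card_fiber_of_mul_lt_card_of_maps_to hT1 h2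
  set S0 := S.filter (fun i => T i = T0) with hS0
  obtain ⟨S1, hS1, hS1c⟩ := exists_subset_card_eq hT0c.le
  apply hA
  have hT0c' : T0.card = m := (mem_powersetCard.mp hT0).2
  set rr := S1.orderEmbOfFin hS1c with hrr
  set cc := T0.orderEmbOfFin hT0c' with hcc
  have h3 : ∀ i : Fin m, ∃ p ∈ A, p.1 / D = rr i ∧ p.2 = D * j + cc (σ i) := by
    intro i
    have h4 : rr i ∈ S0 := hS1 (orderEmbOfFin_mem S1 hS1c i)
    have h5 := (mem_filter.mp h4)
    have h6 : cc (σ i) ∈ bcols D A (rr i, j) := by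
      apply hT2 _ h5.1
      rw [h5.2]
      exact orderEmbOfFin_mem T0 hT0c' _
    obtain ⟨p, hp, hp2⟩ := mem_image.mp h6
    obtain ⟨hp3, hp4⟩ := mem_filter.mp hp
    refine ⟨p, hp3, congrArg Prod.fst hp4, ?_⟩
    have h7 : p.2 / D = j := congrArg Prod.snd hp4
    rw [← hp2, ← h7]
    exact (Nat.div_add_mod _ _).symm
  choose f hf hf1 hf2 using h3
  refine ⟨fun i => (f i).1, fun k => D * j + cc k, ?_, ?_, ?_⟩
  · intro i k hik
    have := rr.strictMono hik
    rw [← hf1 i, ← hf1 k] at this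
    exact Nat.lt_of_div_lt_div this
  · intro i k hik
    have := cc.strictMono hik
    show D * j + cc i < D * j + cc k
    omega
  · intro i
    show ((f i).1, D * j + cc (σ i)) ∈ A
    rw [← hf2 i]
    exact hf i

/-- the rows (modulo `D`) of the points of `A` in the block `b` -/
def brows (D : ℕ) (A : Finset (ℕ × ℕ)) (b : ℕ × ℕ) : Finset ℕ :=
  (A.filter (fun p => contr D p = b)).image (fun p => p.1 % D)

theorem brows_eq (D : ℕ) (A : Finset (ℕ × ℕ)) (i j : ℕ) :
    brows D A (i, j) = bcols D (A.image Prod.swap) (j, i) := by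
  ext x
  unfold brows bcols
  simp only [mem_image]
  constructor
  · rintro ⟨p, hp, hx⟩
    obtain ⟨hp, hp2⟩ := mem_filter.mp hp
    refine ⟨p.swap, mem_filter.mpr ⟨mem_image_of_mem _ hp, ?_⟩, hx⟩
    unfold contr at hp2 ⊢
    rw [Prod.mk.injEq] at hp2 ⊢
    exact ⟨hp2.2, hp2.1⟩
  · rintro ⟨p, hp, hx⟩
    obtain ⟨hp, hp2⟩ := mem_filter.mp hp
    obtain ⟨p', hp', rfl⟩ := mem_image.mp hp
    refine ⟨p', mem_filter.mpr ⟨hp', ?_⟩, hx⟩
    unfold contr at hp2 ⊢
    rw [Prod.mk.injEq] at hp2 ⊢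
    exact ⟨hp2.2, hp2.1⟩

theorem tall_bound {m : ℕ} {σ : Equiv.Perm (Fin m)} {A : Finset (ℕ × ℕ)} {D : ℕ} (hD : 0 < D)
    (hA : ¬ Contains σ A) (q i : ℕ) :
    ((range q).filter (fun j => m ≤ (brows D A (i, j)).card)).card ≤ m * D.choose m := by
  simp only [brows_eq]
  exact wide_bound hD (σ := σ⁻¹) (fun h => hA h.swap) q i

/-- the number of points in a block -/
theorem block_card (D : ℕ) (A : Finset (ℕ × ℕ)) (b : ℕ × ℕ) :
    (A.filter (fun p => contr D p = b)).card ≤ (brows D A b).card * (bcols D A b).card := by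
  rw [← card_product]
  refine card_le_card_of_injOn (fun p => (p.1 % D, p.2 % D)) ?_ ?_
  · intro p hp
    exact mem_product.mpr ⟨mem_image_of_mem _ hp, mem_image_of_mem _ hp⟩
  · intro p hp p' hp' h
    have h1 := (mem_filter.mp hp).2
    have h2 := (mem_filter.mp hp').2
    have h3 : p.1 / D = p'.1 / D := by
      have := congrArg Prod.fst (h1.trans h2.symm)
      exact this
    have h4 : p.2 / D = p'.2 / D := by
      have := congrArg Prod.snd (h1.trans h2.symm)
      exact this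
    have h5 : p.1 % D = p'.1 % D := congrArg Prod.fst h
    have h6 : p.2 % D = p'.2 % D := congrArg Prod.snd h
    ext
    · rw [← Nat.div_add_mod p.1 D, ← Nat.div_add_mod p'.1 D, h3, h5]
    · rw [← Nat.div_add_mod p.2 D, ← Nat.div_add_mod p'.2 D, h4, h6]

theorem bcols_card_le {D : ℕ} (hD : 0 < D) (A : Finset (ℕ × ℕ)) (b : ℕ × ℕ) :
    (bcols D A b).card ≤ D := by
  calc (bcols D A b).card ≤ (range D).card := card_le_card (by
        intro x hx
        obtain ⟨p, _, hp⟩ := mem_image.mp hx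
        rw [mem_range, ← hp]
        exact Nat.mod_lt _ hD)
    _ = D := card_range D

theorem brows_card_le {D : ℕ} (hD : 0 < D) (A : Finset (ℕ × ℕ)) (b : ℕ × ℕ) :
    (brows D A b).card ≤ D := by
  calc (brows D A b).card ≤ (range D).card := card_le_card (by
        intro x hx
        obtain ⟨p, _, hp⟩ := mem_image.mp hx
        rw [mem_range, ← hp]
        exact Nat.mod_lt _ hD)
    _ = D := card_range D

/-- the main step of the induction -/
theorem card_step {m : ℕ} {σ : Equiv.Perm (Fin m)} {D : ℕ} (hD : 0 < D) (q : ℕ)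
    {A : Finset (ℕ × ℕ)} (hA : ¬ Contains σ A) (hq : A ⊆ range (D * q) ×ˢ range (D * q)) :
    A.card ≤ (m - 1) ^ 2 * (A.image (contr D)).card + 2 * (D ^ 2 * (q * (m * D.choose m))) := by
  classical
  set B := A.image (contr D) with hB
  have hBq : B ⊆ range q ×ˢ range q := by
    intro b hb
    obtain ⟨p, hp, rfl⟩ := mem_image.mp hb
    have h1 := mem_product.mp (hq hp)
    rw [mem_range, mem_range] at h1
    exact mem_product.mpr ⟨mem_range.mpr (Nat.div_lt_of_lt_mul h1.1),
      mem_range.mpr (Nat.div_lt_of_lt_mul h1.2)⟩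
  have h1 : A.card = ∑ b ∈ B, (A.filter (fun p => contr D p = b)).card :=
    card_eq_sum_card_image _ _
  set Wd := (range q ×ˢ range q).filter (fun b => m ≤ (bcols D A b).card) with hWd
  set Tl := (range q ×ˢ range q).filter (fun b => m ≤ (brows D A b).card) with hTl
  have hWc : Wd.card ≤ q * (m * D.choose m) := by
    have : Wd ⊆ (range q).biUnion (fun j =>
        ((range q).filter (fun i => m ≤ (bcols D A (i, j)).card)).image (fun i => (i, j))) := by
      intro b hb
      obtain ⟨h2, h3⟩ := mem_filter.mp hb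
      obtain ⟨h4, h5⟩ := mem_product.mp h2
      exact mem_biUnion.mpr ⟨b.2, h5, mem_image.mpr ⟨b.1, mem_filter.mpr ⟨h4, h3⟩, rfl⟩⟩
    calc Wd.card ≤ _ := card_le_card this
      _ ≤ ∑ j ∈ range q, (m * D.choose m) := by
        refine card_biUnion_le.trans (sum_le_sum fun j _ => ?_)
        exact card_image_le.trans (wide_bound hD hA q j)
      _ = q * (m * D.choose m) := by rw [sum_const, card_range, smul_eq_mul]
  have hTc : Tl.card ≤ q * (m * D.choose m) := by
    have : Tl ⊆ (range q).biUnion (fun i =>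
        ((range q).filter (fun j => m ≤ (brows D A (i, j)).card)).image (fun j => (i, j))) := by
      intro b hb
      obtain ⟨h2, h3⟩ := mem_filter.mp hb
      obtain ⟨h4, h5⟩ := mem_product.mp h2
      exact mem_biUnion.mpr ⟨b.1, h4, mem_image.mpr ⟨b.2, mem_filter.mpr ⟨h5, h3⟩, rfl⟩⟩
    calc Tl.card ≤ _ := card_le_card this
      _ ≤ ∑ j ∈ range q, (m * D.choose m) := by
        refine card_biUnion_le.trans (sum_le_sum fun j _ => ?_)
        exact card_image_le.trans (tall_bound hD hA q j)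
      _ = q * (m * D.choose m) := by rw [sum_const, card_range, smul_eq_mul]
  have h2 : ∀ b ∈ B, (A.filter (fun p => contr D p = b)).card ≤
      (m - 1) ^ 2 + ((if b ∈ Wd then D ^ 2 else 0) + (if b ∈ Tl then D ^ 2 else 0)) := by
    intro b hb
    have h3 := block_card D A b
    have h4 := bcols_card_le hD A b
    have h5 := brows_card_le hD A b
    by_cases hw : b ∈ Wd
    · rw [if_pos hw]
      have : (brows D A b).card * (bcols D A b).card ≤ D * D := Nat.mul_le_mul h5 h4
      nlinarith [Nat.zero_le ((m-1)^2), Nat.zero_le (if b ∈ Tl then D ^ 2 else 0)]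
    · by_cases ht : b ∈ Tl
      · rw [if_pos ht]
        have : (brows D A b).card * (bcols D A b).card ≤ D * D := Nat.mul_le_mul h5 h4
        nlinarith [Nat.zero_le ((m-1)^2), Nat.zero_le (if b ∈ Wd then D ^ 2 else 0)]
      · have h6 : (bcols D A b).card ≤ m - 1 := by
          by_contra hcon
          exact hw (mem_filter.mpr ⟨hBq hb, by omega⟩)
        have h7 : (brows D A b).card ≤ m - 1 := by
          by_contra hcon
          exact ht (mem_filter.mpr ⟨hBq hb, by omega⟩)
        have : (brows D A b).card * (bcols D A b).card ≤ (m - 1) * (m - 1) :=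
          Nat.mul_le_mul h7 h6
        rw [if_neg hw, if_neg ht]
        nlinarith
  have h8 : ∑ b ∈ B, (if b ∈ Wd then D ^ 2 else 0) ≤ D ^ 2 * (q * (m * D.choose m)) := by
    rw [← sum_filter, sum_const, smul_eq_mul, mul_comm]
    refine Nat.mul_le_mul le_rfl (le_trans (card_le_card ?_) hWc)
    intro b hb; exact (mem_filter.mp hb).2
  have h9 : ∑ b ∈ B, (if b ∈ Tl then D ^ 2 else 0) ≤ D ^ 2 * (q * (m * D.choose m)) := by
    rw [← sum_filter, sum_const, smul_eq_mul, mul_comm]
    refine Nat.mul_le_mul le_rfl (le_trans (card_le_card ?_) hTc)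
    intro b hb; exact (mem_filter.mp hb).2
  calc A.card = ∑ b ∈ B, (A.filter (fun p => contr D p = b)).card := h1
    _ ≤ ∑ b ∈ B, ((m - 1) ^ 2 +
        ((if b ∈ Wd then D ^ 2 else 0) + (if b ∈ Tl then D ^ 2 else 0))) := sum_le_sum h2
    _ = B.card * (m - 1) ^ 2 + (∑ b ∈ B, (if b ∈ Wd then D ^ 2 else 0) +
        ∑ b ∈ B, (if b ∈ Tl then D ^ 2 else 0)) := by
      rw [sum_add_distrib, sum_add_distrib, sum_const, smul_eq_mul]
    _ ≤ _ := by nlinarith

/-- Marcus and Tardos: a 0-1 matrix of side `n` which avoids a permutation matrix has `O(n)`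
entries. -/
theorem marcus_tardos {m : ℕ} (σ : Equiv.Perm (Fin m)) : ∃ K : ℕ, ∀ (n : ℕ) (A : Finset (ℕ × ℕ)),
    A ⊆ range n ×ˢ range n → ¬ Contains σ A → A.card ≤ K * n := by
  classical
  rcases Nat.eq_zero_or_pos m with rfl | hm
  · refine ⟨0, fun n A _ h => absurd ?_ h⟩
    exact ⟨fun i => i.elim0, fun i => i.elim0, fun i => i.elim0, fun i => i.elim0,
      fun i => i.elim0⟩
  obtain ⟨D, hD⟩ : ∃ D, D = (m + 1) ^ 2 := ⟨_, rfl⟩
  obtain ⟨S, hS⟩ : ∃ S, S = 2 * D + 2 * (D ^ 2 * (m * D.choose m)) := ⟨_, rfl⟩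
  have hD4 : 4 ≤ D := by rw [hD]; nlinarith
  have hDm : (m - 1) ^ 2 + 1 ≤ D := by
    obtain ⟨k, rfl⟩ : ∃ k, m = k + 1 := ⟨m - 1, by omega⟩
    rw [hD]
    simp only [Nat.add_sub_cancel]
    nlinarith
  refine ⟨D * S, fun n => ?_⟩
  induction n using Nat.strong_induction_on with
  | _ n ih =>
  intro A hAn hA
  rcases Nat.eq_zero_or_pos n with rfl | hn
  · have : A = ∅ := by
      rw [← subset_empty]
      simpa using hAn
    rw [this]; simp
  obtain ⟨q, hq⟩ : ∃ q, q = n / D := ⟨_, rfl⟩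
  have hDq : D * q ≤ n := by rw [hq]; exact Nat.mul_div_le n D
  have hDq2 : n < D * q + D := by
    have := Nat.div_add_mod n D
    have := Nat.mod_lt n (show D > 0 by omega)
    rw [hq]; omega
  have hqn : q < n := by nlinarith
  set A1 := A.filter (fun p => p.1 < D * q ∧ p.2 < D * q) with hA1
  set A2 := A.filter (fun p => ¬ (p.1 < D * q ∧ p.2 < D * q)) with hA2
  have hsum : A.card = A1.card + A2.card := (card_filter_add_card_filter_not _).symm
  have hA2c : A2.card ≤ 2 * D * n := by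
    have : A2 ⊆ (Ico (D * q) (D * q + D) ×ˢ range n) ∪ (range n ×ˢ Ico (D * q) (D * q + D)) := by
      intro p hp
      obtain ⟨h1, h2⟩ := mem_filter.mp hp
      have h3 := mem_product.mp (hAn h1)
      rw [mem_range, mem_range] at h3
      rw [mem_union, mem_product, mem_product, mem_Ico, mem_Ico, mem_range, mem_range]
      omega
    calc A2.card ≤ _ := card_le_card this
      _ ≤ _ := card_union_le _ _
      _ = 2 * D * n := by
        rw [card_product, card_product, Nat.card_Ico, card_range]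
        simp only [Nat.add_sub_cancel_left]
        ring
  have hA1' : ¬ Contains σ A1 := fun h => hA (h.mono (filter_subset _ _))
  have h1 := card_step (show 0 < D by omega) q hA1' (by
    intro p hp
    obtain ⟨_, h2⟩ := mem_filter.mp hp
    rw [mem_product, mem_range, mem_range]; exact h2)
  have h2 : (A1.image (contr D)).card ≤ D * S * q := by
    refine ih q hqn _ ?_ (fun h => hA1' (contains_contr D h))
    intro b hb
    obtain ⟨p, hp, rfl⟩ := mem_image.mp hb
    obtain ⟨_, h2⟩ := mem_filter.mp hp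
    exact mem_product.mpr ⟨mem_range.mpr (Nat.div_lt_of_lt_mul h2.1),
      mem_range.mpr (Nat.div_lt_of_lt_mul h2.2)⟩
  have h3 : (m - 1) ^ 2 * (A1.image (contr D)).card ≤ (m - 1) ^ 2 * (S * n) := by
    refine Nat.mul_le_mul le_rfl (h2.trans ?_)
    calc D * S * q = S * (D * q) := by ring
      _ ≤ S * n := Nat.mul_le_mul le_rfl hDq
  have h4 : 2 * (D ^ 2 * (q * (m * D.choose m))) ≤ 2 * (D ^ 2 * (m * D.choose m)) * n := by
    calc 2 * (D ^ 2 * (q * (m * D.choose m))) = 2 * (D ^ 2 * (m * D.choose m)) * q := by ring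
      _ ≤ _ := Nat.mul_le_mul le_rfl hqn.le
  have h5 : A.card ≤ 2 * D * n + (m - 1) ^ 2 * (S * n) +
      2 * (D ^ 2 * (m * D.choose m)) * n := by omega
  have h6 : 2 * D * n + 2 * (D ^ 2 * (m * D.choose m)) * n = S * n := by rw [hS]; ring
  have h7 : ((m - 1) ^ 2 + 1) * (S * n) ≤ D * (S * n) := Nat.mul_le_mul hDm le_rfl
  calc A.card ≤ ((m - 1) ^ 2 + 1) * (S * n) := by
        rw [add_mul, one_mul]; omega
    _ ≤ D * (S * n) := h7
    _ = D * S * n := by ring

/-- the 0-1 matrices of side `n` which avoid `σ` -/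
noncomputable def avo {m : ℕ} (σ : Equiv.Perm (Fin m)) (n : ℕ) : Finset (Finset (ℕ × ℕ)) := by
  classical exact (range n ×ˢ range n).powerset.filter (fun A => ¬ Contains σ A)

theorem mem_avo {m : ℕ} (σ : Equiv.Perm (Fin m)) (n : ℕ) (A : Finset (ℕ × ℕ)) :
    A ∈ avo σ n ↔ A ⊆ range n ×ˢ range n ∧ ¬ Contains σ A := by
  classical
  unfold avo
  rw [mem_filter, mem_powerset]

theorem avo_mono {m : ℕ} (σ : Equiv.Perm (Fin m)) {n n' : ℕ} (h : n ≤ n') :
    (avo σ n).card ≤ (avo σ n').card := by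
  refine card_le_card ?_
  intro A hA
  rw [mem_avo] at hA ⊢
  refine ⟨hA.1.trans ?_, hA.2⟩
  exact product_subset_product (range_mono h) (range_mono h)

/-- Klazar's doubling inequality -/
theorem avo_double {m : ℕ} (σ : Equiv.Perm (Fin m)) {K : ℕ}
    (hK : ∀ (n : ℕ) (A : Finset (ℕ × ℕ)), A ⊆ range n ×ˢ range n → ¬ Contains σ A →
      A.card ≤ K * n) (n : ℕ) : (avo σ (2 * n)).card ≤ (avo σ n).card * 16 ^ (K * n) := by
  classical
  have hmap : ∀ A ∈ avo σ (2 * n), A.image (contr 2) ∈ avo σ n := by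
    intro A hA
    rw [mem_avo] at hA ⊢
    refine ⟨?_, fun h => hA.2 (contains_contr 2 h)⟩
    intro b hb
    obtain ⟨p, hp, rfl⟩ := mem_image.mp hb
    have h1 := mem_product.mp (hA.1 hp)
    rw [mem_range, mem_range] at h1
    exact mem_product.mpr ⟨mem_range.mpr (Nat.div_lt_of_lt_mul h1.1),
      mem_range.mpr (Nat.div_lt_of_lt_mul h1.2)⟩
  rw [card_eq_sum_card_fiberwise (f := fun A => A.image (contr 2)) (t := avo σ n)
    (fun A hA => hmap A hA)]
  refine (sum_le_card_nsmul _ _ (16 ^ (K * n)) fun B hB => ?_).trans_eq (smul_eq_mul _ _)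
  rw [mem_avo] at hB
  have hBc := hK n B hB.1 hB.2
  have hsub : (avo σ (2 * n)).filter (fun A => A.image (contr 2) = B) ⊆
      (B.biUnion (fun b => Ico (2 * b.1) (2 * b.1 + 2) ×ˢ Ico (2 * b.2) (2 * b.2 + 2))).powerset := by
    intro A hA
    obtain ⟨_, h2⟩ := mem_filter.mp hA
    rw [mem_powerset]
    intro p hp
    rw [mem_biUnion]
    refine ⟨contr 2 p, h2 ▸ mem_image_of_mem _ hp, ?_⟩
    rw [mem_product, mem_Ico, mem_Ico]
    unfold contr
    simp only
    omega
  calc _ ≤ _ := card_le_card hsub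
    _ = 2 ^ (B.biUnion (fun b => Ico (2 * b.1) (2 * b.1 + 2) ×ˢ
        Ico (2 * b.2) (2 * b.2 + 2))).card := card_powerset _
    _ ≤ 2 ^ (4 * (K * n)) := by
      refine Nat.pow_le_pow_right (by norm_num) ?_
      refine card_biUnion_le.trans ?_
      simp only [card_product, Nat.card_Ico, Nat.add_sub_cancel_left, sum_const, smul_eq_mul]
      omega
    _ = 16 ^ (K * n) := by rw [pow_mul]; norm_num

/-- Klazar's reduction: exponentially many 0-1 matrices avoid `σ` -/
theorem klazar {m : ℕ} (σ : Equiv.Perm (Fin m)) : ∃ C : ℕ, 1 ≤ C ∧ ∀ n : ℕ,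
    (avo σ n).card ≤ C ^ n := by
  obtain ⟨K, hK⟩ := marcus_tardos σ
  have h1 : ∀ s : ℕ, (avo σ (2 ^ s)).card ≤ 2 * 16 ^ (K * 2 ^ s) := by
    intro s
    induction s with
    | zero =>
      have : (avo σ (2 ^ 0)).card ≤ 2 := by
        classical
        calc (avo σ (2 ^ 0)).card ≤ ((range 1 ×ˢ range 1).powerset).card := by
              unfold avo; exact card_filter_le _ _
          _ = 2 := by simp
      calc _ ≤ 2 := this
        _ ≤ 2 * 16 ^ (K * 2 ^ 0) := Nat.le_mul_of_pos_right _ (by positivity)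
    | succ s ih =>
      calc (avo σ (2 ^ (s + 1))).card = (avo σ (2 * 2 ^ s)).card := by rw [pow_succ']
        _ ≤ (avo σ (2 ^ s)).card * 16 ^ (K * 2 ^ s) := avo_double σ hK _
        _ ≤ 2 * 16 ^ (K * 2 ^ s) * 16 ^ (K * 2 ^ s) := Nat.mul_le_mul ih le_rfl
        _ = 2 * 16 ^ (K * 2 ^ (s + 1)) := by
          rw [mul_assoc, ← pow_add]; congr 2; rw [pow_succ]; ring
  refine ⟨2 * 16 ^ (2 * K), Nat.one_le_iff_ne_zero.mpr (by positivity), fun n => ?_⟩
  rcases Nat.eq_zero_or_pos n with rfl | hn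
  · classical
    calc (avo σ 0).card ≤ ((range 0 ×ˢ range 0).powerset).card := by
          unfold avo; exact card_filter_le _ _
      _ = _ := by simp
  · obtain ⟨s, hs1, hs2⟩ : ∃ s, n ≤ 2 ^ s ∧ 2 ^ s ≤ 2 * n := by
      refine ⟨Nat.clog 2 n, Nat.le_pow_clog (by norm_num) n, ?_⟩
      rcases Nat.lt_or_ge 1 n with h | h
      · have h2 := Nat.pow_pred_clog_lt_self (b := 2) (by norm_num) h
        have h3 : 0 < Nat.clog 2 n := Nat.clog_pos (by norm_num) h
        obtain ⟨k, hk⟩ : ∃ k, Nat.clog 2 n = k + 1 := ⟨Nat.clog 2 n - 1, by omega⟩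
        rw [hk] at h2 ⊢
        simp only [Nat.pred_succ] at h2
        rw [pow_succ]; omega
      · have : n = 1 := by omega
        subst this
        simp
    calc (avo σ n).card ≤ (avo σ (2 ^ s)).card := avo_mono σ hs1
      _ ≤ 2 * 16 ^ (K * 2 ^ s) := h1 s
      _ ≤ 2 ^ n * 16 ^ (K * (2 * n)) := by
        refine Nat.mul_le_mul ?_ (Nat.pow_le_pow_right (by norm_num) (Nat.mul_le_mul le_rfl hs2))
        calc 2 = 2 ^ 1 := by norm_num
          _ ≤ 2 ^ n := Nat.pow_le_pow_right (by norm_num) hn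
      _ = (2 * 16 ^ (2 * K)) ^ n := by
        rw [mul_pow, ← pow_mul]; congr 2; ring

end Pool.Agent.R105.HM
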