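import Pool.Agent.R105.HM.Double

/-!
# The upper bound for the largest clique in a random ordered matching
-/

set_option autoImplicit false

open Finset Filter
open scoped Topology

namespace Pool.Agent.R105.HM

open Classical in
/-- the largest number of edges of a clique contained in `M` -/
noncomputable def z (PP : Finset (List Bool)) (M : Finset (Finset ℕ)) : ℕ :=
  (M.powerset.filter (IsClique PP)).sup card

open Classical in
/-- the probability that a uniformly random ordered `r`-matching of `{1, …, r n}` has the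
property `Q` -/
noncomputable def prob (r n : ℕ) (Q : Finset (Finset ℕ) → Prop) : ℝ :=
  (((matchings r (Icc 1 (r * n))).filter Q).card : ℝ) / ((matchings r (Icc 1 (r * n))).card : ℝ)

theorem exists_clique {PP : Finset (List Bool)} {M : Finset (Finset ℕ)} {k : ℕ}
    (h : k ≤ z PP M) : ∃ K ⊆ M, K.card = k ∧ IsClique PP K := by
  classical
  have hne : (M.powerset.filter (IsClique PP)).Nonempty :=
    ⟨∅, mem_filter.mpr ⟨mem_powerset.mpr (empty_subset _), by
      intro e he; simp at he⟩⟩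
  obtain ⟨K', hK', hc⟩ := exists_mem_eq_sup _ hne card
  obtain ⟨h1, h2⟩ := mem_filter.mp hK'
  rw [z, hc] at h
  obtain ⟨K, hK, hKc⟩ := exists_subset_card_eq h
  refine ⟨K, hK.trans (mem_powerset.mp h1), hKc, fun e he f hf hef => ?_⟩
  exact h2 e (hK he) f (hK hf) hef

theorem matchings_pos {r : ℕ} (hr : 0 < r) {n : ℕ} {W : Finset ℕ} (hW : W.card = r * n) :
    0 < (matchings r W).card :=
  lt_of_lt_of_le (pow_pos (Nat.factorial_pos n) _) (matchings_lower hr n W hW)

/-- the bad event has small probability -/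
theorem bad_bound {PP : Finset (List Bool)} (hPP : ∀ P ∈ PP, ∀ Q ∈ PP, ¬ Harmonious P Q)
    {r : ℕ} (hr : 2 ≤ r) : ∃ C0 : ℕ, 1 ≤ C0 ∧ ∀ (n k : ℕ) (W : Finset ℕ), W.card = r * n →
    ∀ S ⊆ matchings r W, (∀ M ∈ S, k ≤ z PP M) →
    (k.factorial : ℝ) ^ r * S.card ≤ (C0 : ℝ) ^ k * (matchings r W).card * (n : ℝ) ^ k := by
  obtain ⟨N, hN⟩ := grid_free PP hPP
  obtain ⟨C1, hC1, hC⟩ := klazar (gridPerm N)
  refine ⟨C1 ^ (r * (r - 1)), Nat.one_le_pow _ _ hC1, fun n k W hW S hS hz => ?_⟩
  have h1 := first_moment PP (show 0 < r by omega) hW k S hS (fun M hM => exists_clique (hz M hM))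
  have h2 : (cm PP r (range (r * k))).card ≤ (C1 ^ (r * (r - 1))) ^ k := by
    calc (cm PP r (range (r * k))).card ≤ ((avo (gridPerm N) (r * k)).card) ^ (r - 1) :=
          cm_card_le hN hr _
      _ ≤ (C1 ^ (r * k)) ^ (r - 1) := Nat.pow_le_pow_left (hC _) _
      _ = (C1 ^ (r * (r - 1))) ^ k := by rw [← pow_mul, ← pow_mul]; congr 1; ring
  have h3 : (k.factorial) ^ r * S.card ≤
      (C1 ^ (r * (r - 1))) ^ k * (matchings r W).card * n ^ k :=
    h1.trans (Nat.mul_le_mul (Nat.mul_le_mul h2 le_rfl) le_rfl)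
  exact_mod_cast h3

/-- the upper bound -/
theorem upper {PP : Finset (List Bool)} (hPP : ∀ P ∈ PP, ∀ Q ∈ PP, ¬ Harmonious P Q)
    {r : ℕ} (hr : 2 ≤ r) : ∃ C : ℝ, 0 < C ∧ Tendsto
      (fun n : ℕ => prob r n (fun M => (z PP M : ℝ) ≤ C * (n : ℝ) ^ (1 / (r : ℝ))))
      atTop (𝓝 1) := by
  classical
  obtain ⟨C0, hC0, hbad⟩ := bad_bound hPP hr
  have hC0' : (1 : ℝ) ≤ C0 := by exact_mod_cast hC0
  obtain ⟨C, hC⟩ : ∃ C : ℝ, C = 2 * C0 * Real.exp 1 ^ r := ⟨_, rfl⟩
  have he : (1 : ℝ) ≤ Real.exp 1 := Real.one_le_exp (by norm_num)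
  have her : (1 : ℝ) ≤ Real.exp 1 ^ r := one_le_pow₀ he
  have hC1 : 1 ≤ C := by rw [hC]; nlinarith
  refine ⟨C, by linarith, ?_⟩
  have hr0 : (0 : ℝ) < r := by positivity
  set kk : ℕ → ℕ := fun n => ⌊C * (n : ℝ) ^ (1 / (r : ℝ))⌋₊ + 1 with hkk
  -- the probability of the bad event
  have key : ∀ n : ℕ, |prob r n (fun M => (z PP M : ℝ) ≤ C * (n : ℝ) ^ (1 / (r : ℝ))) - 1| ≤
      (1 / 2 : ℝ) ^ (kk n) := by
    intro n
    set W := Icc 1 (r * n) with hW
    have hWc : W.card = r * n := by rw [hW, Nat.card_Icc]; omega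
    have hm : (0 : ℝ) < ((matchings r W).card : ℝ) := by
      exact_mod_cast matchings_pos (show 0 < r by omega) hWc
    set k := kk n with hk
    set S := (matchings r W).filter (fun M => ¬ (z PP M : ℝ) ≤ C * (n : ℝ) ^ (1 / (r : ℝ))) with hS
    have hsum : (((matchings r W).filter
        (fun M => (z PP M : ℝ) ≤ C * (n : ℝ) ^ (1 / (r : ℝ)))).card : ℝ) + (S.card : ℝ) =
        ((matchings r W).card : ℝ) := by
      exact_mod_cast card_filter_add_card_filter_not _
    have h1 := hbad n k W hWc S (filter_subset _ _) (by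
      intro M hM
      have h2 := (mem_filter.mp hM).2
      push Not at h2
      have h3 : ⌊C * (n : ℝ) ^ (1 / (r : ℝ))⌋₊ < z PP M :=
        (Nat.floor_lt (by positivity)).mpr h2
      exact h3)
    have hkpos : (0 : ℝ) < k := by rw [hk]; positivity
    have hkn : C * (n : ℝ) ^ (1 / (r : ℝ)) ≤ k := by
      have := (Nat.lt_floor_add_one (C * (n : ℝ) ^ (1 / (r : ℝ)))).le
      rw [hk, hkk]; push_cast; exact this
    have hkr : C * n ≤ (k : ℝ) ^ r := by
      calc C * n ≤ C ^ r * n := by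
            refine mul_le_mul_of_nonneg_right ?_ (Nat.cast_nonneg n)
            exact le_self_pow₀ hC1 (by omega)
        _ = (C * (n : ℝ) ^ (1 / (r : ℝ))) ^ r := by
            rw [mul_pow, one_div, Real.rpow_inv_natCast_pow (Nat.cast_nonneg n) (by omega)]
        _ ≤ (k : ℝ) ^ r := pow_le_pow_left₀ (by positivity) hkn r
    have hfac : (k : ℝ) ^ k ≤ Real.exp 1 ^ k * k.factorial := by
      have h4 := Real.pow_div_factorial_le_exp (k : ℝ) hkpos.le k
      rw [div_le_iff₀ (by positivity)] at h4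
      calc (k : ℝ) ^ k ≤ Real.exp k * k.factorial := h4
        _ = Real.exp 1 ^ k * k.factorial := by rw [← Real.exp_nat_mul, mul_one]
    -- combine
    have h5 : (S.card : ℝ) ≤ (1 / 2) ^ k * ((matchings r W).card : ℝ) := by
      have h6 : ((k : ℝ) ^ r) ^ k * S.card ≤
          (Real.exp 1 ^ r) ^ k * ((C0 : ℝ) ^ k * (matchings r W).card * (n : ℝ) ^ k) := by
        calc ((k : ℝ) ^ r) ^ k * S.card = ((k : ℝ) ^ k) ^ r * S.card := by
              rw [← pow_mul, ← pow_mul, mul_comm r k]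
          _ ≤ (Real.exp 1 ^ k * k.factorial) ^ r * S.card :=
              mul_le_mul_of_nonneg_right (pow_le_pow_left₀ (by positivity) hfac r)
                (Nat.cast_nonneg _)
          _ = (Real.exp 1 ^ r) ^ k * ((k.factorial : ℝ) ^ r * S.card) := by
              rw [mul_pow, ← pow_mul, ← pow_mul, mul_comm r k]; ring
          _ ≤ _ := mul_le_mul_of_nonneg_left h1 (by positivity)
      have h7 : (Real.exp 1 ^ r) ^ k * ((C0 : ℝ) ^ k * (matchings r W).card * (n : ℝ) ^ k) =
          (1 / 2) ^ k * ((matchings r W).card : ℝ) * (C * n) ^ k := by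
        rw [hC]
        have : (2 * (C0 : ℝ) * Real.exp 1 ^ r * n) ^ k =
          2 ^ k * ((C0 : ℝ) ^ k * (Real.exp 1 ^ r) ^ k * (n : ℝ) ^ k) := by
          rw [mul_pow, mul_pow, mul_pow]; ring
        rw [this, one_div, inv_pow]
        field_simp
      rw [h7] at h6
      have h8 : (C * n) ^ k ≤ ((k : ℝ) ^ r) ^ k := pow_le_pow_left₀ (by positivity) hkr k
      have h9 : (0 : ℝ) < ((k : ℝ) ^ r) ^ k := by positivity
      have h10 : ((k : ℝ) ^ r) ^ k * S.card ≤
          ((k : ℝ) ^ r) ^ k * ((1 / 2) ^ k * ((matchings r W).card : ℝ)) := by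
        calc ((k : ℝ) ^ r) ^ k * S.card ≤
            (1 / 2) ^ k * ((matchings r W).card : ℝ) * (C * n) ^ k := h6
          _ ≤ (1 / 2) ^ k * ((matchings r W).card : ℝ) * ((k : ℝ) ^ r) ^ k :=
            mul_le_mul_of_nonneg_left h8 (by positivity)
          _ = _ := by ring
      exact le_of_mul_le_mul_left h10 h9
    unfold prob
    rw [← hW]
    have h11 : (((matchings r W).filter
        (fun M => (z PP M : ℝ) ≤ C * (n : ℝ) ^ (1 / (r : ℝ)))).card : ℝ) /
        ((matchings r W).card : ℝ) - 1 = - (S.card / ((matchings r W).card : ℝ)) := by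
      field_simp
      linarith
    rw [h11, abs_neg, abs_of_nonneg (by positivity), div_le_iff₀ hm]
    exact h5
  have hk_tend : Tendsto kk atTop atTop := by
    have h1 : Tendsto (fun n : ℕ => C * (n : ℝ) ^ (1 / (r : ℝ))) atTop atTop := by
      refine Tendsto.const_mul_atTop (by linarith) ?_
      exact (tendsto_rpow_atTop (by positivity)).comp tendsto_natCast_atTop_atTop
    exact (tendsto_add_atTop_nat 1).comp (tendsto_nat_floor_atTop.comp h1)
  have h1 : Tendsto (fun n => (1 / 2 : ℝ) ^ (kk n)) atTop (𝓝 0) :=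
    (tendsto_pow_atTop_nhds_zero_of_lt_one (by norm_num) (by norm_num)).comp hk_tend
  have h2 := squeeze_zero_norm (fun n => by rw [Real.norm_eq_abs]; exact key n) h1
  have h3 := h2.add_const 1
  simpa using h3

end Pool.Agent.R105.HM
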